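import Pool.Agent.Helper77.K3.DefsII

/-!
# Kleinian structures in dimension three: conformal block on an invariant plane
-/

set_option autoImplicit false

open Set Filter Topology Matrix

namespace Pool.Agent.Helper40.K3.S1

open Pool.Agent.Helper77.K3

/-- The plane spanned by `e 0`, `e 1` is invariant and its block is conformal. -/
def Cf (γ : Aff3) : Prop :=
  lin γ 2 0 = 0 ∧ lin γ 2 1 = 0 ∧ lin γ 0 0 = lin γ 1 1 ∧ lin γ 0 1 = -lin γ 1 0

def chi (γ : Aff3) : ℝ := lin γ 2 2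
def rot (γ : Aff3) : ℂ := ⟨lin γ 0 0, lin γ 1 0⟩
def be (γ : Aff3) : ℂ := ⟨lin γ 0 2, lin γ 1 2⟩
def cc (γ : Aff3) : ℝ := tr γ 2
def tt (γ : Aff3) : ℂ := ⟨tr γ 0, tr γ 1⟩

/-- First coordinate. -/
def pp (x : E) : ℂ := ⟨x 0, x 1⟩

/-- The point with coordinates `p`, `z`. -/
def pt (p : ℂ) (z : ℝ) : E := ![p.re, p.im, z]

lemma pt_two (p : ℂ) (z : ℝ) : pt p z 2 = z := rfl
lemma pp_pt (p : ℂ) (z : ℝ) : pp (pt p z) = p := rfl
lemma pt_eta (x : E) : pt (pp x) (x 2) = x := by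
  ext i
  fin_cases i <;> rfl

lemma act2 (hco : S_coord) {γ : Aff3} (h : Cf γ) (x : E) : γ x 2 = chi γ * x 2 + cc γ := by
  obtain ⟨h1, h2, h3, h4⟩ := h
  rw [hco.1, h1, h2]
  simp only [chi, cc]
  ring

lemma actp (hco : S_coord) {γ : Aff3} (h : Cf γ) (x : E) :
    pp (γ x) = rot γ * pp x + be γ * (x 2 : ℂ) + tt γ := by
  obtain ⟨h1, h2, h3, h4⟩ := h
  apply Complex.ext
  · simp only [pp, rot, tt, be, Complex.add_re, Complex.mul_re, Complex.ofReal_re,
      Complex.ofReal_im]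
    rw [hco.1, h4]
    ring
  · simp only [pp, rot, tt, be, Complex.add_im, Complex.mul_im, Complex.ofReal_re,
      Complex.ofReal_im]
    rw [hco.1, ← h3]
    ring

lemma cf_mul (hco : S_coord) {γ δ : Aff3} (h : Cf γ) (h' : Cf δ) : Cf (γ * δ) := by
  obtain ⟨h1, h2, h3, h4⟩ := h
  obtain ⟨k1, k2, k3, k4⟩ := h'
  have hm := hco.2.1
  refine ⟨?_, ?_, ?_, ?_⟩
  · rw [hm, h1, h2, k1]; ring
  · rw [hm, h1, h2, k2]; ring
  · rw [hm, hm, k1, k2, k4, h4, k3, h3]; ring
  · rw [hm, hm, k1, k2, k4, h4, k3, h3]; ring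

lemma chi_mul (hco : S_coord) {γ δ : Aff3} (h : Cf γ) : chi (γ * δ) = chi γ * chi δ := by
  obtain ⟨h1, h2, h3, h4⟩ := h
  simp only [chi]
  rw [hco.2.1, h1, h2]
  ring

lemma rot_mul (hco : S_coord) {γ δ : Aff3} (h : Cf γ) (h' : Cf δ) :
    rot (γ * δ) = rot γ * rot δ := by
  obtain ⟨h1, h2, h3, h4⟩ := h
  obtain ⟨k1, k2, k3, k4⟩ := h'
  have hm := hco.2.1
  apply Complex.ext
  · simp only [rot, Complex.mul_re]
    rw [hm, h4, k1]; ring
  · simp only [rot, Complex.mul_im]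
    rw [hm, ← h3, k1]; ring

lemma be_mul (hco : S_coord) {γ δ : Aff3} (h : Cf γ) :
    be (γ * δ) = rot γ * be δ + be γ * (chi δ : ℂ) := by
  obtain ⟨h1, h2, h3, h4⟩ := h
  have hm := hco.2.1
  apply Complex.ext
  · simp only [be, rot, chi, Complex.add_re, Complex.mul_re, Complex.ofReal_re, Complex.ofReal_im]
    rw [hm, h4]; ring
  · simp only [be, rot, chi, Complex.add_im, Complex.mul_im, Complex.ofReal_re, Complex.ofReal_im]
    rw [hm, ← h3]; ring

lemma cc_mul (hco : S_coord) {γ δ : Aff3} (h : Cf γ) : cc (γ * δ) = chi γ * cc δ + cc γ := by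
  obtain ⟨h1, h2, h3, h4⟩ := h
  simp only [chi, cc]
  rw [hco.2.2.1, h1, h2]
  ring

lemma tt_mul (hco : S_coord) {γ δ : Aff3} (h : Cf γ) :
    tt (γ * δ) = rot γ * tt δ + be γ * (cc δ : ℂ) + tt γ := by
  obtain ⟨h1, h2, h3, h4⟩ := h
  apply Complex.ext
  · simp only [tt, rot, be, cc, Complex.add_re, Complex.mul_re, Complex.ofReal_re,
      Complex.ofReal_im]
    rw [hco.2.2.1, h4]; ring
  · simp only [tt, rot, be, cc, Complex.add_im, Complex.mul_im, Complex.ofReal_re,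
      Complex.ofReal_im]
    rw [hco.2.2.1, ← h3]; ring

lemma ext' (hco : S_coord) {γ δ : Aff3} (h : Cf γ) (h' : Cf δ) (h0 : chi γ = chi δ)
    (h1 : rot γ = rot δ) (h2 : be γ = be δ) (h3 : cc γ = cc δ) (h4 : tt γ = tt δ) : γ = δ := by
  obtain ⟨a1, a2, a3, a4⟩ := h
  obtain ⟨k1, k2, k3, k4⟩ := h'
  have r1 := congrArg Complex.re h1
  have r2 := congrArg Complex.im h1
  have r3 := congrArg Complex.re h2
  have r4 := congrArg Complex.im h2
  have r5 := congrArg Complex.re h4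
  have r6 := congrArg Complex.im h4
  simp only [rot, be, tt, chi, cc] at r1 r2 r3 r4 r5 r6 h0 h3
  apply hco.2.2.2.1
  · intro i j
    fin_cases i <;> fin_cases j
    · exact r1
    · change lin γ 0 1 = lin δ 0 1
      rw [a4, k4, r2]
    · exact r3
    · exact r2
    · change lin γ 1 1 = lin δ 1 1
      rw [← a3, ← k3, r1]
    · exact r4
    · exact a1.trans k1.symm
    · exact a2.trans k2.symm
    · exact h0
  · intro i
    fin_cases i
    · exact r5
    · exact r6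
    · exact h3

lemma mat_one_apply (hco : S_coord) (i j : Fin 3) : lin 1 i j = if i = j then 1 else 0 := by
  have h := congrFun (congrFun hco.2.2.2.2.2.1 i) j
  rw [Matrix.one_apply] at h
  exact h

lemma cf_one (hco : S_coord) : Cf 1 := by
  refine ⟨?_, ?_, ?_, ?_⟩ <;> simp [mat_one_apply hco]

lemma chi_one (hco : S_coord) : chi 1 = 1 := by simp [chi, mat_one_apply hco]

lemma rot_one (hco : S_coord) : rot 1 = 1 := by
  apply Complex.ext <;> simp [rot, mat_one_apply hco]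

lemma be_one (hco : S_coord) : be 1 = 0 := by
  apply Complex.ext <;> simp [be, mat_one_apply hco]

lemma cc_one : cc 1 = 0 := rfl

lemma tt_one : tt 1 = 0 := rfl

/-- Existence of elements with given data. -/
lemma exists_cf (hco : S_coord) (l : ℝ) (a b t : ℂ) (s : ℝ) (hl : l ≠ 0) (ha : a ≠ 0) :
    ∃ γ : Aff3, Cf γ ∧ chi γ = l ∧ rot γ = a ∧ be γ = b ∧ cc γ = s ∧ tt γ = t := by
  have hdet : (!![a.re, -a.im, b.re; a.im, a.re, b.im; 0, 0, l] : M3).det ≠ 0 := by
    rw [Matrix.det_fin_three]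
    simp only [Matrix.of_apply, Matrix.cons_val', Matrix.cons_val_zero, Matrix.cons_val_one,
      Matrix.cons_val, Matrix.cons_val_fin_one]
    have h : a.re * a.re + a.im * a.im ≠ 0 := by
      have := Complex.normSq_pos.2 ha
      rw [Complex.normSq_apply] at this
      exact this.ne'
    intro h1
    apply h
    have : l * (a.re * a.re + a.im * a.im) = 0 := by linarith
    exact (mul_eq_zero.1 this).resolve_left hl
  obtain ⟨γ, h1, h2, -⟩ := hco.2.2.2.2.2.2.2.2.2 _ ![t.re, t.im, s] hdet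
  have h3 : ∀ i j, lin γ i j = (!![a.re, -a.im, b.re; a.im, a.re, b.im; 0, 0, l] : M3) i j :=
    fun i j => congrFun (congrFun h1 i) j
  refine ⟨γ, ⟨h3 2 0, h3 2 1, ?_, ?_⟩, h3 2 2, ?_, ?_, h2 2, ?_⟩
  · rw [h3, h3]; rfl
  · rw [h3, h3]; rfl
  · exact Complex.ext (h3 0 0) (h3 1 0)
  · exact Complex.ext (h3 0 2) (h3 1 2)
  · exact Complex.ext (h2 0) (h2 1)

/-- Determinant. -/
lemma det_eq (hco : S_coord) {γ : Aff3} (h : Cf γ)
    (hd : |LinearMap.det (γ.linear : E →ₗ[ℝ] E)| = 1) :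
    |chi γ| * Complex.normSq (rot γ) = 1 := by
  obtain ⟨h1, h2, h3, h4⟩ := h
  rw [← hco.2.2.2.2.2.2.2.1 γ, Matrix.det_fin_three] at hd
  have h5 : mat γ 0 0 * mat γ 1 1 * mat γ 2 2 - mat γ 0 0 * mat γ 1 2 * mat γ 2 1 -
      mat γ 0 1 * mat γ 1 0 * mat γ 2 2 + mat γ 0 1 * mat γ 1 2 * mat γ 2 0 +
      mat γ 0 2 * mat γ 1 0 * mat γ 2 1 - mat γ 0 2 * mat γ 1 1 * mat γ 2 0 =
      chi γ * Complex.normSq (rot γ) := by
    have hm : ∀ i j, mat γ i j = lin γ i j := fun i j => rfl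
    simp only [hm, chi, rot, Complex.normSq_apply]
    rw [h1, h2, h4, ← h3]
    ring
  rw [h5, abs_mul, abs_of_nonneg (Complex.normSq_nonneg _)] at hd
  exact hd

/-! ## Diagonal elements and conjugation -/

/-- `γ` fixes the origin and is `l` on `e 2` and multiplication by `a` on the plane. -/
def IsD (γ : Aff3) (l : ℝ) (a : ℂ) : Prop :=
  Cf γ ∧ chi γ = l ∧ rot γ = a ∧ be γ = 0 ∧ cc γ = 0 ∧ tt γ = 0

lemma isD_mul (hco : S_coord) {γ δ : Aff3} {l l' : ℝ} {a a' : ℂ} (h : IsD γ l a)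
    (h' : IsD δ l' a') : IsD (γ * δ) (l * l') (a * a') := by
  obtain ⟨h0, h1, h2, h3, h4, h5⟩ := h
  obtain ⟨k0, k1, k2, k3, k4, k5⟩ := h'
  refine ⟨cf_mul hco h0 k0, ?_, ?_, ?_, ?_, ?_⟩
  · rw [chi_mul hco h0, h1, k1]
  · rw [rot_mul hco h0 k0, h2, k2]
  · rw [be_mul hco h0, h3, k3]; simp
  · rw [cc_mul hco h0, h4, k4]; simp
  · rw [tt_mul hco h0, h5, k5, h3]; simp

lemma isD_one (hco : S_coord) : IsD 1 1 1 :=
  ⟨cf_one hco, chi_one hco, rot_one hco, be_one hco, cc_one, tt_one⟩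

lemma isD_pow (hco : S_coord) {γ : Aff3} {l : ℝ} {a : ℂ} (h : IsD γ l a) (n : ℕ) :
    IsD (γ ^ n) (l ^ n) (a ^ n) := by
  induction n with
  | zero => simpa using isD_one hco
  | succ n ih =>
    rw [pow_succ, pow_succ, pow_succ]
    exact isD_mul hco ih h

lemma inv_facts (hco : S_coord) {γ : Aff3} (h : Cf γ) (hi : Cf γ⁻¹) :
    chi γ * chi γ⁻¹ = 1 ∧ rot γ * rot γ⁻¹ = 1 ∧ rot γ * be γ⁻¹ + be γ * (chi γ⁻¹ : ℂ) = 0 ∧
      chi γ * cc γ⁻¹ + cc γ = 0 ∧ rot γ * tt γ⁻¹ + be γ * (cc γ⁻¹ : ℂ) + tt γ = 0 := by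
  refine ⟨?_, ?_, ?_, ?_, ?_⟩
  · rw [← chi_mul hco h, mul_inv_cancel, chi_one hco]
  · rw [← rot_mul hco h hi, mul_inv_cancel, rot_one hco]
  · rw [← be_mul hco h, mul_inv_cancel, be_one hco]
  · rw [← cc_mul hco h, mul_inv_cancel, cc_one]
  · rw [← tt_mul hco h, mul_inv_cancel, tt_one]

lemma isD_inv (hco : S_coord) {γ : Aff3} {l : ℝ} {a : ℂ} (h : IsD γ l a) (hi : Cf γ⁻¹) :
    IsD γ⁻¹ l⁻¹ a⁻¹ := by
  obtain ⟨h0, h1, h2, h3, h4, h5⟩ := h
  obtain ⟨e1, e2, e3, e5, e4⟩ := inv_facts hco h0 hi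
  have hl : chi γ ≠ 0 := left_ne_zero_of_mul_eq_one e1
  have ha : rot γ ≠ 0 := left_ne_zero_of_mul_eq_one e2
  refine ⟨hi, ?_, ?_, ?_, ?_, ?_⟩
  · rw [← h1]
    exact (inv_eq_of_mul_eq_one_right e1).symm
  · rw [← h2]
    exact (inv_eq_of_mul_eq_one_right e2).symm
  · rw [h3, zero_mul, add_zero] at e3
    exact (mul_eq_zero.1 e3).resolve_left ha
  · rw [h4, add_zero] at e5
    exact (mul_eq_zero.1 e5).resolve_left hl
  · rw [h3, h5, zero_mul, add_zero, add_zero] at e4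
    exact (mul_eq_zero.1 e4).resolve_left ha

/-- Conjugation by a diagonal element. -/
lemma conjD (hco : S_coord) {g g' τ : Aff3} {l l' : ℝ} {a a' : ℂ} (h : IsD g l a)
    (h' : IsD g' l' a') (hτ : Cf τ) :
    Cf (g * τ * g') ∧ chi (g * τ * g') = l * l' * chi τ ∧ rot (g * τ * g') = a * a' * rot τ ∧
      be (g * τ * g') = a * be τ * l' ∧ cc (g * τ * g') = l * cc τ ∧
      tt (g * τ * g') = a * tt τ := by
  obtain ⟨h0, h1, h2, h3, h4, h5⟩ := h
  obtain ⟨k0, k1, k2, k3, k4, k5⟩ := h'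
  have hc := cf_mul hco h0 hτ
  refine ⟨cf_mul hco hc k0, ?_, ?_, ?_, ?_, ?_⟩
  · rw [chi_mul hco hc, chi_mul hco h0, h1, k1]; ring
  · rw [rot_mul hco hc k0, rot_mul hco h0 hτ, h2, k2]; ring
  · rw [be_mul hco hc, be_mul hco h0, h2, h3, k1, k3]; ring
  · rw [cc_mul hco hc, cc_mul hco h0, h1, h4, k4]; simp
  · rw [tt_mul hco hc, tt_mul hco h0, h2, h5, k5, k4, h3]; simp

lemma tendsto_pt {f : ℕ → ℝ} {u : ℕ → ℂ} {z : ℝ} {p : ℂ} (hu : Tendsto u atTop (𝓝 p))
    (hf : Tendsto f atTop (𝓝 z)) : Tendsto (fun n => pt (u n) (f n)) atTop (𝓝 (pt p z)) := by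
  rw [tendsto_pi_nhds]
  intro i
  fin_cases i
  · exact (Complex.continuous_re.tendsto _).comp hu
  · exact (Complex.continuous_im.tendsto _).comp hu
  · exact hf

lemma lin_tendsto {σ : ℕ → Aff3} (hC : ∀ n, Cf (σ n))
    (h0 : Tendsto (fun n => chi (σ n)) atTop (𝓝 1))
    (h1 : Tendsto (fun n => rot (σ n)) atTop (𝓝 1))
    (h2 : Tendsto (fun n => be (σ n)) atTop (𝓝 0))
    (h3 : Tendsto (fun n => cc (σ n)) atTop (𝓝 0))
    (h4 : Tendsto (fun n => tt (σ n)) atTop (𝓝 0)) :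
    (∀ i j, Tendsto (fun n => lin (σ n) i j) atTop (𝓝 (if i = j then 1 else 0))) ∧
      (∀ i, Tendsto (fun n => tr (σ n) i) atTop (𝓝 0)) := by
  have r1 : Tendsto (fun n => lin (σ n) 0 0) atTop (𝓝 1) :=
    (Complex.continuous_re.tendsto _).comp h1
  have r2 : Tendsto (fun n => lin (σ n) 1 0) atTop (𝓝 0) :=
    (Complex.continuous_im.tendsto _).comp h1
  have r3 : Tendsto (fun n => lin (σ n) 0 2) atTop (𝓝 0) :=
    (Complex.continuous_re.tendsto _).comp h2
  have r4 : Tendsto (fun n => lin (σ n) 1 2) atTop (𝓝 0) :=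
    (Complex.continuous_im.tendsto _).comp h2
  constructor
  · intro i j
    fin_cases i <;> fin_cases j
    · exact r1
    · have : (fun n => lin (σ n) 0 1) = fun n => -lin (σ n) 1 0 := funext fun n => (hC n).2.2.2
      simpa [this] using r2.neg
    · exact r3
    · exact r2
    · have : (fun n => lin (σ n) 1 1) = fun n => lin (σ n) 0 0 :=
        funext fun n => (hC n).2.2.1.symm
      simpa [this] using r1
    · exact r4
    · have : (fun n => lin (σ n) 2 0) = fun _ => 0 := funext fun n => (hC n).1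
      simp [this]
    · have : (fun n => lin (σ n) 2 1) = fun _ => 0 := funext fun n => (hC n).2.1
      simp [this]
    · exact h0
  · intro i
    fin_cases i
    · exact (Complex.continuous_re.tendsto _).comp h4
    · exact (Complex.continuous_im.tendsto _).comp h4
    · exact h3

/-- No element with `chi > 1` which is diagonal. -/
theorem main (hcontr : S_contr) (hF1 : S_F1) (hF2 : S_F2) (hP1 : S_P1) (hK : S_K) (hcof : S_cof)
    (hnd : S_nondisc) (hco : S_coord) (D : KData) (hC : ∀ γ ∈ D.Γ, Cf γ)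
    (g : Aff3) (hg : g ∈ D.Γ) (hl : 1 < chi g) (hb : be g = 0) (hs : cc g = 0) (ht : tt g = 0) :
    False := by
  have hgD : IsD g (chi g) (rot g) := ⟨hC g hg, rfl, rfl, hb, hs, ht⟩
  have hgi : g⁻¹ ∈ D.Γ := inv_mem hg
  have hgiD := isD_inv hco hgD (hC _ hgi)
  obtain ⟨l, hldef⟩ : ∃ l, l = chi g := ⟨_, rfl⟩
  obtain ⟨a, hadef⟩ : ∃ a, a = rot g := ⟨_, rfl⟩
  rw [← hldef, ← hadef] at hgD hgiD
  rw [← hldef] at hl
  have hl0 : 0 < l := by linarith
  have hna : ‖a‖ < 1 := by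
    have h1 := det_eq hco (hC g hg) (D.det g hg)
    rw [← hldef, ← hadef, abs_of_pos hl0, Complex.normSq_eq_norm_sq] at h1
    by_contra h2
    push Not at h2
    have h3 : 1 ≤ ‖a‖ ^ 2 := one_le_pow₀ h2
    nlinarith
  have ha0 : a ≠ 0 := by
    intro h
    have h1 := det_eq hco (hC g hg) (D.det g hg)
    rw [← hadef, h, Complex.normSq_zero, mul_zero] at h1
    exact zero_ne_one h1
  have hpa : Tendsto (fun n : ℕ => a ^ n) atTop (𝓝 0) :=
    tendsto_pow_atTop_nhds_zero_of_norm_lt_one hna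
  have hpl : Tendsto (fun n : ℕ => (l⁻¹) ^ n) atTop (𝓝 0) :=
    tendsto_pow_atTop_nhds_zero_of_lt_one (inv_nonneg.2 hl0.le) (inv_lt_one_of_one_lt₀ hl)
  have hplc : Tendsto (fun n : ℕ => (((l⁻¹) ^ n : ℝ) : ℂ)) atTop (𝓝 0) := by
    have h4 : Tendsto (fun n : ℕ => (((l⁻¹) ^ n : ℝ) : ℂ)) atTop (𝓝 ((0 : ℝ) : ℂ)) :=
      (Complex.continuous_ofReal.tendsto _).comp hpl
    simpa using h4
  have hgcof : Tendsto (fun n : ℕ => g ^ n) atTop cofinite := by
    apply hcof.1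
    refine ⟨2, 2, ?_⟩
    have h1 : (fun n : ℕ => |lin (g ^ n) 2 2|) = fun n : ℕ => l ^ n := by
      funext n
      have h2 : lin (g ^ n) 2 2 = l ^ n := (isD_pow hco hgD n).2.1
      rw [h2, abs_of_pos (pow_pos hl0 n)]
    rw [h1]
    exact tendsto_pow_atTop_atTop_of_one_lt hl
  -- the axis is in `K`
  have hK0 : ∀ z : ℝ, pt 0 z ∈ D.K := by
    intro z
    obtain ⟨y, hy, hy0⟩ := hF2 D (e 2) 0 (by
      intro h
      have := congrFun h 2
      simp [e] at this)
    have hy0' : y 2 = 0 := by simpa [e] using hy0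
    have h1 := hP1 D (fun n => g ^ n) (fun n => pt (pp y) ((l⁻¹) ^ n * z)) y (pt 0 z)
      (fun n => pow_mem hg n) hgcof (by
        have h2 : Tendsto (fun n : ℕ => (l⁻¹) ^ n * z) atTop (𝓝 0) := by
          simpa using hpl.mul_const z
        have h3 := tendsto_pt (tendsto_const_nhds (x := pp y)) h2
        rwa [← hy0', pt_eta] at h3) (by
        have h2 : (fun n => (g ^ n) (pt (pp y) ((l⁻¹) ^ n * z))) =
            fun n : ℕ => pt (a ^ n * pp y) z := by
          funext n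
          obtain ⟨k0, k1, k2, k3, k4, k5⟩ := isD_pow hco hgD n
          rw [← pt_eta ((g ^ n) (pt (pp y) ((l⁻¹) ^ n * z))), act2 hco k0, actp hco k0, k1, k2, k3,
            k4, k5, pt_two, pp_pt]
          have h3 : l ^ n * ((l⁻¹) ^ n * z) = z := by
            rw [← mul_assoc, ← mul_pow, mul_inv_cancel₀ hl0.ne', one_pow, one_mul]
          rw [h3]
          simp
        rw [h2]
        refine tendsto_pt ?_ tendsto_const_nhds
        simpa using hpa.mul_const (pp y))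
    rcases h1 with h1 | h1
    · exact absurd hy h1
    · exact h1
  -- elements contracted by `g`
  have triv : ∀ τ ∈ D.Γ, chi τ = 1 → rot τ = 1 → cc τ = 0 → τ = 1 := by
    intro τ hτ h1 h2 h3
    have hcj : ∀ n : ℕ, Cf (g ^ n * τ * g⁻¹ ^ n) ∧ chi (g ^ n * τ * g⁻¹ ^ n) = 1 ∧
        rot (g ^ n * τ * g⁻¹ ^ n) = 1 ∧ be (g ^ n * τ * g⁻¹ ^ n) =
          a ^ n * be τ * ((l⁻¹) ^ n : ℝ) ∧ cc (g ^ n * τ * g⁻¹ ^ n) = 0 ∧
          tt (g ^ n * τ * g⁻¹ ^ n) = a ^ n * tt τ := by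
      intro n
      obtain ⟨k0, k1, k2, k3, k4, k5⟩ := conjD hco (isD_pow hco hgD n) (isD_pow hco hgiD n)
        (hC τ hτ)
      refine ⟨k0, ?_, ?_, k3, ?_, k5⟩
      · rw [k1, h1, mul_one, ← mul_pow, mul_inv_cancel₀ hl0.ne', one_pow]
      · rw [k2, h2, mul_one, ← mul_pow, mul_inv_cancel₀ ha0, one_pow]
      · rw [k4, h3, mul_zero]
    have hmem : ∀ n : ℕ, g ^ n * τ * g⁻¹ ^ n ∈ D.Γ := fun n =>
      mul_mem (mul_mem (pow_mem hg n) hτ) (pow_mem hgi n)
    obtain ⟨l1, l2⟩ := lin_tendsto (σ := fun n => g ^ n * τ * g⁻¹ ^ n) (fun n => (hcj n).1)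
      (by simp only [(hcj _).2.1]; exact tendsto_const_nhds)
      (by simp only [(hcj _).2.2.1]; exact tendsto_const_nhds)
      (by
        simp only [(hcj _).2.2.2.1]
        have h5 := (hpa.mul_const (be τ)).mul hplc
        simpa using h5)
      (by simp only [(hcj _).2.2.2.2.1]; exact tendsto_const_nhds)
      (by
        simp only [(hcj _).2.2.2.2.2]
        simpa using hpa.mul_const (tt τ))
    obtain ⟨n, hn⟩ := (hcontr D _ hmem l1 l2).exists
    have hn' : g ^ n * τ * (g ^ n)⁻¹ = 1 := by rw [← inv_pow]; exact hn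
    calc τ = (g ^ n)⁻¹ * (g ^ n * τ * (g ^ n)⁻¹) * g ^ n := by group
      _ = 1 := by rw [hn']; group
  -- elements contracted by `g⁻¹`
  have triv2 : ∀ τ ∈ D.Γ, chi τ = 1 → rot τ = 1 → be τ = 0 → tt τ = 0 → τ = 1 := by
    intro τ hτ h1 h2 h3 h3'
    have hcj : ∀ n : ℕ, Cf (g⁻¹ ^ n * τ * g ^ n) ∧ chi (g⁻¹ ^ n * τ * g ^ n) = 1 ∧
        rot (g⁻¹ ^ n * τ * g ^ n) = 1 ∧ be (g⁻¹ ^ n * τ * g ^ n) = 0 ∧
          cc (g⁻¹ ^ n * τ * g ^ n) = (l⁻¹) ^ n * cc τ ∧ tt (g⁻¹ ^ n * τ * g ^ n) = 0 := by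
      intro n
      obtain ⟨k0, k1, k2, k3, k4, k5⟩ := conjD hco (isD_pow hco hgiD n) (isD_pow hco hgD n)
        (hC τ hτ)
      refine ⟨k0, ?_, ?_, ?_, k4, ?_⟩
      · rw [k1, h1, mul_one, ← mul_pow, inv_mul_cancel₀ hl0.ne', one_pow]
      · rw [k2, h2, mul_one, ← mul_pow, inv_mul_cancel₀ ha0, one_pow]
      · rw [k3, h3, mul_zero, zero_mul]
      · rw [k5, h3', mul_zero]
    have hmem : ∀ n : ℕ, g⁻¹ ^ n * τ * g ^ n ∈ D.Γ := fun n =>
      mul_mem (mul_mem (pow_mem hgi n) hτ) (pow_mem hg n)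
    obtain ⟨l1, l2⟩ := lin_tendsto (σ := fun n => g⁻¹ ^ n * τ * g ^ n) (fun n => (hcj n).1)
      (by simp only [(hcj _).2.1]; exact tendsto_const_nhds)
      (by simp only [(hcj _).2.2.1]; exact tendsto_const_nhds)
      (by simp only [(hcj _).2.2.2.1]; exact tendsto_const_nhds)
      (by
        simp only [(hcj _).2.2.2.2.1]
        simpa using hpl.mul_const (cc τ))
      (by simp only [(hcj _).2.2.2.2.2]; exact tendsto_const_nhds)
    obtain ⟨n, hn⟩ := (hcontr D _ hmem l1 l2).exists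
    have hn' : (g ^ n)⁻¹ * τ * g ^ n = 1 := by rw [← inv_pow]; exact hn
    calc τ = g ^ n * ((g ^ n)⁻¹ * τ * g ^ n) * (g ^ n)⁻¹ := by group
      _ = 1 := by rw [hn']; group
  -- commutators
  have hcomm : ∀ γ ∈ D.Γ, ∀ δ ∈ D.Γ, chi (γ * δ * γ⁻¹ * δ⁻¹) = 1 ∧
      rot (γ * δ * γ⁻¹ * δ⁻¹) = 1 := by
    intro γ hγ δ hδ
    obtain ⟨f1, f2, -⟩ := inv_facts hco (hC γ hγ) (hC _ (inv_mem hγ))
    obtain ⟨g1, g2, -⟩ := inv_facts hco (hC δ hδ) (hC _ (inv_mem hδ))
    have c1 := hC _ (mul_mem hγ hδ)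
    have c2 := hC _ (mul_mem (mul_mem hγ hδ) (inv_mem hγ))
    constructor
    · rw [chi_mul hco c2, chi_mul hco c1, chi_mul hco (hC _ hγ)]
      linear_combination (chi δ * chi δ⁻¹) * f1 + g1
    · rw [rot_mul hco c2 (hC _ (inv_mem hδ)), rot_mul hco c1 (hC _ (inv_mem hγ)),
        rot_mul hco (hC _ hγ) (hC _ hδ)]
      linear_combination (rot δ * rot δ⁻¹) * f2 + g2
  have hab : ∀ γ ∈ D.Γ, ∀ δ ∈ D.Γ, chi γ = 1 → chi δ = 1 → γ * δ = δ * γ := by
    intro γ hγ δ hδ e1 e2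
    obtain ⟨h1, h2⟩ := hcomm γ hγ δ hδ
    obtain ⟨f1, f2, f3, f4, f5⟩ := inv_facts hco (hC γ hγ) (hC _ (inv_mem hγ))
    obtain ⟨g1, g2, g3, g4, g5⟩ := inv_facts hco (hC δ hδ) (hC _ (inv_mem hδ))
    have c1 := hC _ (mul_mem hγ hδ)
    have c2 := hC _ (mul_mem (mul_mem hγ hδ) (inv_mem hγ))
    have h3 : cc (γ * δ * γ⁻¹ * δ⁻¹) = 0 := by
      rw [cc_mul hco c2, cc_mul hco c1, cc_mul hco (hC _ hγ), chi_mul hco c1,
        chi_mul hco (hC _ hγ), e1, e2]
      rw [e1, one_mul] at f1 f4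
      rw [e2, one_mul] at g1 g4
      rw [f1]
      linear_combination f4 + g4
    have h4 := triv _ (mul_mem (mul_mem (mul_mem hγ hδ) (inv_mem hγ)) (inv_mem hδ)) h1 h2 h3
    calc γ * δ = (γ * δ * γ⁻¹ * δ⁻¹) * (δ * γ) := by group
      _ = δ * γ := by rw [h4, one_mul]
  -- no rotation part
  have hrot : ∀ σ ∈ D.Γ, chi σ = 1 → rot σ = 1 := by
    intro σ hσ hσ1
    by_contra hα
    have hα' : (1 : ℂ) - rot σ ≠ 0 := fun h => hα (by linear_combination -h)
    obtain ⟨s, hs'⟩ : ∃ s : ℂ, s = be σ / (1 - rot σ) := ⟨_, rfl⟩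
    have es : s * (1 - rot σ) = be σ := by rw [hs']; exact div_mul_cancel₀ _ hα'
    obtain ⟨p, hp'⟩ : ∃ p : ℂ, p = (tt σ - s * cc σ) / (1 - rot σ) := ⟨_, rfl⟩
    have ep : p * (1 - rot σ) = tt σ - s * cc σ := by rw [hp']; exact div_mul_cancel₀ _ hα'
    have key : ∀ h ∈ D.Γ, rot h * s + be h = s * chi h ∧ rot h * p + tt h = p + s * cc h := by
      intro h hh
      have hσ' : h * σ * h⁻¹ ∈ D.Γ := mul_mem (mul_mem hh hσ) (inv_mem hh)
      obtain ⟨f1, f2, f3, f4, f5⟩ := inv_facts hco (hC h hh) (hC _ (inv_mem hh))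
      have c1 := hC _ (mul_mem hh hσ)
      have r1 : chi (h * σ * h⁻¹) = 1 := by
        rw [chi_mul hco c1, chi_mul hco (hC h hh), hσ1, mul_one, f1]
      have r2 : rot (h * σ * h⁻¹) = rot σ := by
        rw [rot_mul hco c1 (hC _ (inv_mem hh)), rot_mul hco (hC h hh) (hC σ hσ)]
        linear_combination rot σ * f2
      have hcm := hab σ hσ _ hσ' hσ1 r1
      have hcj : (h * σ * h⁻¹) * h = h * σ := by group
      obtain ⟨σ', hσ'def⟩ : ∃ σ', σ' = h * σ * h⁻¹ := ⟨_, rfl⟩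
      rw [← hσ'def] at hσ' r1 r2 hcm hcj
      have u1 := congrArg be hcm
      have u2 := congrArg tt hcm
      have u3 := congrArg be hcj
      have u4 := congrArg tt hcj
      have u5 := congrArg cc hcj
      rw [be_mul hco (hC σ hσ), be_mul hco (hC _ hσ'), r1, r2, hσ1] at u1
      rw [tt_mul hco (hC σ hσ), tt_mul hco (hC _ hσ'), r2] at u2
      rw [be_mul hco (hC _ hσ'), be_mul hco (hC h hh), r2, hσ1] at u3
      rw [tt_mul hco (hC _ hσ'), tt_mul hco (hC h hh), r2] at u4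
      rw [cc_mul hco (hC _ hσ'), cc_mul hco (hC h hh), r1] at u5
      push_cast at u1 u3
      have v5 : (cc σ' : ℂ) = chi h * cc σ := by
        have : cc σ' = chi h * cc σ := by linear_combination u5
        rw [this]
        push_cast
        ring
      have v1 : be σ' = be σ := by
        have : (1 - rot σ) * be σ' = (1 - rot σ) * be σ := by linear_combination -u1
        exact mul_left_cancel₀ hα' this
      have v2 : tt σ' = tt σ - s * cc σ + s * chi h * cc σ := by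
        have : (1 - rot σ) * tt σ' = (1 - rot σ) * (tt σ - s * cc σ + s * chi h * cc σ) := by
          rw [v1, v5] at u2
          linear_combination -u2 + (cc σ - chi h * cc σ : ℂ) * es
        exact mul_left_cancel₀ hα' this
      have w1 : rot h * s + be h = s * chi h := by
        have : (1 - rot σ) * (rot h * s + be h) = (1 - rot σ) * (s * chi h) := by
          rw [v1] at u3
          linear_combination -u3 + (rot h - chi h : ℂ) * es
        exact mul_left_cancel₀ hα' this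
      refine ⟨w1, ?_⟩
      have : (1 - rot σ) * (rot h * p + tt h) = (1 - rot σ) * (p + s * cc h) := by
        rw [v1, v2] at u4
        linear_combination -u4 + (rot h - 1 : ℂ) * ep - (cc h : ℂ) * es - (cc σ : ℂ) * w1
      exact mul_left_cancel₀ hα' this
    have hconv : Convex ℝ {x : E | pp x = p + s * (x 2 : ℂ)} := by
      intro x hx y hy u v hu hv huv
      have hx' : pp x = p + s * (x 2 : ℂ) := hx
      have hy' : pp y = p + s * (y 2 : ℂ) := hy
      have h1 : pp (u • x + v • y) = u * pp x + v * pp y := by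
        apply Complex.ext
        · simp [pp]
        · simp [pp]
      have h2 : ((u • x + v • y) 2 : ℂ) = u * (x 2 : ℂ) + v * (y 2 : ℂ) := by
        simp
      have h3 : (u : ℂ) + v = 1 := by exact_mod_cast huv
      change pp (u • x + v • y) = p + s * (((u • x + v • y) 2 : ℝ) : ℂ)
      rw [h1, h2, hx', hy']
      linear_combination p * h3
    have h1 := hF1 D _ hconv ⟨pt (p + s * (0 : ℝ)) 0, rfl⟩ (by
      intro h hh x hx
      obtain ⟨w1, w2⟩ := key h hh
      have hx' : pp x = p + s * (x 2 : ℂ) := hx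
      change pp (h x) = p + s * ((h x 2 : ℝ) : ℂ)
      rw [actp hco (hC h hh), act2 hco (hC h hh), hx']
      push_cast
      linear_combination (x 2 : ℂ) * w1 + w2)
    have h2 : pt (p + 1) 0 ∈ {x : E | pp x = p + s * (x 2 : ℂ)} := by rw [h1]; exact mem_univ _
    have h3 : p + 1 = p + s * ((0 : ℝ) : ℂ) := h2
    rw [Complex.ofReal_zero, mul_zero, add_zero] at h3
    exact one_ne_zero (left_eq_add.1 h3.symm)
  -- no shear part
  have hla : (l : ℂ) - a * ((l⁻¹ : ℝ) : ℂ) ≠ 0 := by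
    intro h
    have h1 : a * ((l⁻¹ : ℝ) : ℂ) = (l : ℂ) := by linear_combination -h
    have h2 := congrArg norm h1
    rw [norm_mul, Complex.norm_real, Complex.norm_real, Real.norm_eq_abs, Real.norm_eq_abs,
      abs_of_pos hl0, abs_of_pos (inv_pos.2 hl0)] at h2
    have h3 : l⁻¹ < 1 := inv_lt_one_of_one_lt₀ hl
    have h4 : 0 < l⁻¹ := inv_pos.2 hl0
    have h5 := norm_nonneg a
    nlinarith
  have hbe : ∀ τ ∈ D.Γ, chi τ = 1 → be τ = 0 := by
    intro τ hτ h1
    by_contra h2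
    have h3 := hrot τ hτ h1
    obtain ⟨k0, k1, k2, k3, k4, k5⟩ := conjD hco hgD hgiD (hC τ hτ)
    have hτ' : g * τ * g⁻¹ ∈ D.Γ := mul_mem (mul_mem hg hτ) hgi
    rw [h1, mul_inv_cancel₀ hl0.ne', one_mul] at k1
    rw [h3, mul_inv_cancel₀ ha0, one_mul] at k2
    have h4 := congrArg tt (hab τ hτ _ hτ' h1 k1)
    rw [tt_mul hco (hC τ hτ), tt_mul hco k0, h3, k2, k3, k4] at h4
    have h5 : be τ * (((l : ℂ) - a * ((l⁻¹ : ℝ) : ℂ)) * (cc τ : ℂ)) = 0 := by
      push_cast at h4 ⊢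
      linear_combination h4
    have h6 : (cc τ : ℂ) = 0 :=
      (mul_eq_zero.1 ((mul_eq_zero.1 h5).resolve_left h2)).resolve_left hla
    have h7 : cc τ = 0 := by exact_mod_cast h6
    apply h2
    rw [triv τ hτ h1 h3 h7, be_one hco]
  -- the translations
  let T : AddSubgroup (Fin 2 → ℝ) :=
    { carrier := {v | ∃ τ ∈ D.Γ, chi τ = 1 ∧ tt τ = ⟨v 0, v 1⟩}
      zero_mem' := ⟨1, one_mem _, chi_one hco, rfl⟩
      add_mem' := by
        rintro v w ⟨τ, h0, h1, h3⟩ ⟨σ, k0, k1, k3⟩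
        refine ⟨τ * σ, mul_mem h0 k0, ?_, ?_⟩
        · rw [chi_mul hco (hC τ h0), h1, k1, mul_one]
        · rw [tt_mul hco (hC τ h0), hrot τ h0 h1, hbe τ h0 h1, h3, k3, one_mul, zero_mul, add_zero,
            add_comm]
          rfl
      neg_mem' := by
        rintro v ⟨τ, h0, h1, h3⟩
        obtain ⟨f1, f2, f3, f4, f5⟩ := inv_facts hco (hC τ h0) (hC _ (inv_mem h0))
        rw [h1, one_mul] at f1
        rw [hrot τ h0 h1, hbe τ h0 h1, one_mul, zero_mul, add_zero, h3] at f5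
        refine ⟨τ⁻¹, inv_mem h0, f1, ?_⟩
        rw [eq_neg_of_add_eq_zero_left f5]
        rfl }
  have hTK : ∀ v ∈ T, ∀ z : ℝ, (![v 0, v 1, z] : E) ∈ D.K := by
    rintro v ⟨τ, h0, h1, h3⟩ z
    have e1 : (![v 0, v 1, z] : E) = τ (pt 0 (z - cc τ)) := by
      rw [← pt_eta (τ (pt 0 (z - cc τ))), actp hco (hC τ h0), act2 hco (hC τ h0), pt_two, pp_pt,
        hrot τ h0 h1, hbe τ h0 h1, h1, h3]
      have e2 : (1 : ℂ) * 0 + 0 * ((z - cc τ : ℝ) : ℂ) + ⟨v 0, v 1⟩ = ⟨v 0, v 1⟩ := by ring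
      have e3 : 1 * (z - cc τ) + cc τ = z := by ring
      rw [e2, e3]
      rfl
    rw [e1, (hK D).2 τ h0]
    exact hK0 _
  have hTcl : ∀ v ∈ closure (T : Set (Fin 2 → ℝ)), ∀ z : ℝ, (![v 0, v 1, z] : E) ∈ D.K := by
    intro v hv x
    have h1 : IsClosed {v : Fin 2 → ℝ | (![v 0, v 1, x] : E) ∈ D.K} := by
      refine (hK D).1.preimage ?_
      refine continuous_pi fun i => ?_
      fin_cases i
      · exact continuous_apply 0
      · exact continuous_apply 1
      · exact continuous_const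
    exact closure_minimal (fun v hv => hTK v hv x) h1 hv
  have hT : ∀ τ ∈ D.Γ, chi τ = 1 → tt τ = 0 := by
    intro τ hτ h1
    by_contra h3
    obtain ⟨w, hw, hwT⟩ := hnd T (by
      intro ε hε
      have h4 : Tendsto (fun n : ℕ => ‖a ^ n * tt τ‖) atTop (𝓝 0) := by
        have h5 := (hpa.mul_const (tt τ)).norm
        simpa using h5
      obtain ⟨n, hn⟩ := (h4.eventually (gt_mem_nhds hε)).exists
      obtain ⟨k0, k1, k2, k3, k4, k5⟩ := conjD hco (isD_pow hco hgD n) (isD_pow hco hgiD n)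
        (hC τ hτ)
      refine ⟨![(a ^ n * tt τ).re, (a ^ n * tt τ).im], ⟨g ^ n * τ * g⁻¹ ^ n,
        mul_mem (mul_mem (pow_mem hg n) hτ) (pow_mem hgi n), ?_, ?_⟩, ?_, ?_⟩
      · rw [k1, h1, mul_one, ← mul_pow, mul_inv_cancel₀ hl0.ne', one_pow]
      · rw [k5]; rfl
      · intro h6
        have h7 : a ^ n * tt τ ≠ 0 := mul_ne_zero (pow_ne_zero _ ha0) h3
        apply h7
        apply Complex.ext
        · exact congrFun h6 0
        · exact congrFun h6 1
      · refine lt_of_le_of_lt ?_ hn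
        rw [pi_norm_le_iff_of_nonneg (norm_nonneg _)]
        intro i
        fin_cases i
        · exact Complex.abs_re_le_norm _
        · exact Complex.abs_im_le_norm _)
    have hww : 0 < w 0 * w 0 + w 1 * w 1 := by
      by_contra h
      apply hw
      have h0 : w 0 = 0 := by nlinarith [mul_self_nonneg (w 0), mul_self_nonneg (w 1)]
      have h1 : w 1 = 0 := by nlinarith [mul_self_nonneg (w 0), mul_self_nonneg (w 1)]
      ext i
      fin_cases i
      · exact h0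
      · exact h1
    obtain ⟨y, hy, hy0⟩ := hF2 D ![-w 1, w 0, 0] 0 (by
      intro h
      have h0 := congrFun h 0
      have h1 := congrFun h 1
      simp at h0 h1
      rw [h0, h1] at hww
      simp at hww)
    have hy1 : -w 1 * y 0 + w 0 * y 1 = 0 := by simpa using hy0
    have h5 := hTcl _ (hwT ((w 0 * y 0 + w 1 * y 1) / (w 0 * w 0 + w 1 * w 1))) (y 2)
    have h6 : (![(((w 0 * y 0 + w 1 * y 1) / (w 0 * w 0 + w 1 * w 1)) • w) 0,
        (((w 0 * y 0 + w 1 * y 1) / (w 0 * w 0 + w 1 * w 1)) • w) 1, y 2] : E) = y := by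
      ext i
      fin_cases i
      · change (w 0 * y 0 + w 1 * y 1) / (w 0 * w 0 + w 1 * w 1) * w 0 = y 0
        rw [div_mul_eq_mul_div, div_eq_iff hww.ne']
        linear_combination w 1 * hy1
      · change (w 0 * y 0 + w 1 * y 1) / (w 0 * w 0 + w 1 * w 1) * w 1 = y 1
        rw [div_mul_eq_mul_div, div_eq_iff hww.ne']
        linear_combination -w 0 * hy1
      · rfl
    rw [h6] at h5
    exact h5 hy
  have hT1 : ∀ τ ∈ D.Γ, chi τ = 1 → τ = 1 := fun τ hτ h1 =>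
    triv2 τ hτ h1 (hrot τ hτ h1) (hbe τ hτ h1) (hT τ hτ h1)
  have hab' : ∀ γ ∈ D.Γ, ∀ δ ∈ D.Γ, γ * δ = δ * γ := by
    intro γ hγ δ hδ
    obtain ⟨h1, h2⟩ := hcomm γ hγ δ hδ
    have h3 := hT1 _ (mul_mem (mul_mem (mul_mem hγ hδ) (inv_mem hγ)) (inv_mem hδ)) h1
    calc γ * δ = (γ * δ * γ⁻¹ * δ⁻¹) * (δ * γ) := by group
      _ = δ * γ := by rw [h3, one_mul]
  -- the origin is fixed
  have hfix : ∀ h ∈ D.Γ, tt h = 0 ∧ cc h = 0 := by
    intro h hh
    have h1 := hab' h hh g hg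
    have h2 : tt h = a * tt h := by
      have h3 := congrArg tt h1
      rw [tt_mul hco (hC h hh), tt_mul hco (hC g hg), ht, hs, hb, Complex.ofReal_zero, mul_zero,
        mul_zero, zero_mul, zero_add, zero_add, add_zero, add_zero, ← hadef] at h3
      exact h3
    have h4 : tt h = 0 := by
      have h5 : (1 - a) * tt h = 0 := by linear_combination h2
      refine (mul_eq_zero.1 h5).resolve_left ?_
      intro h6
      have h7 : a = 1 := by linear_combination -h6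
      rw [h7, norm_one] at hna
      exact lt_irrefl _ hna
    have h8 := congrArg cc h1
    rw [cc_mul hco (hC h hh), cc_mul hco (hC g hg), hs, mul_zero, zero_add, add_zero,
      ← hldef] at h8
    refine ⟨h4, ?_⟩
    have h9 : (1 - l) * cc h = 0 := by linear_combination h8
    refine (mul_eq_zero.1 h9).resolve_left ?_
    linarith
  have h1 := hF1 D {0} (convex_singleton 0) (singleton_nonempty 0) (by
    intro h hh x hx
    rw [mem_singleton_iff] at hx
    subst hx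
    obtain ⟨k1, k2⟩ := hfix h hh
    rw [mem_singleton_iff]
    ext i
    fin_cases i
    · exact congrArg Complex.re k1
    · exact congrArg Complex.im k1
    · exact k2)
  have h2 : (e 0 : E) ∈ ({0} : Set E) := by rw [h1]; exact mem_univ _
  rw [mem_singleton_iff] at h2
  have h3 := congrFun h2 0
  simp [e] at h3

/-- The normal form of an element with `chi > 1`. -/
theorem nochi (hcontr : S_contr) (hF1 : S_F1) (hF2 : S_F2) (hP1 : S_P1) (hK : S_K) (hcof : S_cof)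
    (hconj : S_conj) (hnd : S_nondisc) (hco : S_coord) (D : KData) (hC : ∀ γ ∈ D.Γ, Cf γ)
    (g : Aff3) (hg : g ∈ D.Γ) (hl : 1 < chi g) : False := by
  have hl0 : 0 < chi g := by linarith
  have hna : ‖rot g‖ < 1 := by
    have h1 := det_eq hco (hC g hg) (D.det g hg)
    rw [abs_of_pos hl0, Complex.normSq_eq_norm_sq] at h1
    by_contra h2
    push Not at h2
    have h3 : 1 ≤ ‖rot g‖ ^ 2 := one_le_pow₀ h2
    nlinarith
  have ha1 : (1 : ℂ) - rot g ≠ 0 := by
    intro h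
    have h7 : rot g = 1 := by linear_combination -h
    rw [h7, norm_one] at hna
    exact lt_irrefl _ hna
  have hal : (chi g : ℂ) - rot g ≠ 0 := by
    intro h
    have h7 : rot g = (chi g : ℂ) := by linear_combination -h
    rw [h7, Complex.norm_real, Real.norm_eq_abs, abs_of_pos hl0] at hna
    linarith
  obtain ⟨s, hs⟩ : ∃ s : ℂ, s = be g / ((chi g : ℂ) - rot g) := ⟨_, rfl⟩
  obtain ⟨z, hz⟩ : ∃ z : ℝ, z = cc g / (1 - chi g) := ⟨_, rfl⟩
  obtain ⟨p, hp⟩ : ∃ p : ℂ, p = (be g * z + tt g) / (1 - rot g) := ⟨_, rfl⟩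
  have es : s * ((chi g : ℂ) - rot g) = be g := by rw [hs]; exact div_mul_cancel₀ _ hal
  have ez : z * (1 - chi g) = cc g := by rw [hz]; exact div_mul_cancel₀ _ (by linarith)
  have ep : p * (1 - rot g) = be g * z + tt g := by rw [hp]; exact div_mul_cancel₀ _ ha1
  obtain ⟨φ, p0, p1, p2, p3, p4, p5⟩ := exists_cf hco 1 1 (-s) (s * z - p) (-z) one_ne_zero
    one_ne_zero
  obtain ⟨ψ, s0, s1, s2, s3, s4, s5⟩ := exists_cf hco 1 1 s p z one_ne_zero one_ne_zero
  have hψ : ψ = φ⁻¹ := by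
    apply eq_inv_of_mul_eq_one_right
    refine ext' hco (cf_mul hco p0 s0) (cf_one hco) ?_ ?_ ?_ ?_ ?_
    · rw [chi_mul hco p0, p1, s1, chi_one hco, one_mul]
    · rw [rot_mul hco p0 s0, p2, s2, rot_one hco, one_mul]
    · rw [be_mul hco p0, p2, p3, s1, s3, be_one hco]; push_cast; ring
    · rw [cc_mul hco p0, p1, p4, s4, cc_one]; ring
    · rw [tt_mul hco p0, p2, p3, p5, s4, s5, tt_one]; ring
  obtain ⟨D', hΩ, hD'⟩ := hconj D φ
  have hmem : φ * g * φ⁻¹ ∈ D'.Γ := by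
    rw [hD']
    have : φ⁻¹ * (φ * g * φ⁻¹) * φ = g := by group
    rw [this]
    exact hg
  rw [← hψ] at hmem
  have hg0 := hC g hg
  have hc := cf_mul hco p0 hg0
  refine main hcontr hF1 hF2 hP1 hK hcof hnd hco D' ?_ (φ * g * ψ) hmem ?_ ?_ ?_ ?_
  · intro γ hγ
    rw [hD'] at hγ
    have h1 := hC _ hγ
    have h2 : γ = φ * (φ⁻¹ * γ * φ) * ψ := by rw [hψ]; group
    rw [h2]
    exact cf_mul hco (cf_mul hco p0 h1) s0
  · rw [chi_mul hco hc, chi_mul hco p0, p1, s1]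
    linarith
  · rw [be_mul hco hc, be_mul hco p0, rot_mul hco p0 hg0, p2, p3, s1, s3]
    push_cast
    linear_combination -es
  · rw [cc_mul hco hc, cc_mul hco p0, chi_mul hco p0, p1, p4, s4]
    linear_combination -ez
  · rw [tt_mul hco hc, tt_mul hco p0, rot_mul hco p0 hg0, be_mul hco p0, p2, p3, p5, s4, s5]
    have hcc : (cc g : ℂ) = z * (1 - chi g) := by
      rw [← ez]
      push_cast
      ring
    rw [hcc]
    linear_combination -ep

/-- The case where `chi` is trivial. -/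
theorem chione (hK : S_K) (hplane : S_planeInv) (hco : S_coord) (D : KData)
    (hC : ∀ γ ∈ D.Γ, Cf γ) (h1 : ∀ γ ∈ D.Γ, chi γ = 1) : D.Ω = univ := by
  obtain ⟨F, hFΩ, hFc, hF⟩ := D.cocompact
  obtain ⟨ε, hε, hth⟩ := hFc.exists_thickening_subset_open D.isOpen hFΩ
  -- discs of uniform radius
  have hdisc : ∀ x ∈ D.Ω, ∀ w : ℂ, ‖w‖ < ε → x + pt w 0 ∈ D.Ω := by
    intro x hx w hw
    obtain ⟨γ, hγ, hγx⟩ := hF x hx
    have hr : ‖rot γ‖ = 1 := by
      have h2 := det_eq hco (hC γ hγ) (D.det γ hγ)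
      rw [h1 γ hγ, abs_one, one_mul, Complex.normSq_eq_norm_sq] at h2
      have h3 := norm_nonneg (rot γ)
      nlinarith
    have h2 : γ (x + pt w 0) = γ x + pt (rot γ * w) 0 := by
      rw [← pt_eta (γ (x + pt w 0)), act2 hco (hC γ hγ), actp hco (hC γ hγ)]
      have h3 : pp (x + pt w 0) = pp x + w := rfl
      have h4 : (x + pt w 0) 2 = x 2 := by simp [pt]
      rw [h3, h4]
      have h5 := act2 hco (hC γ hγ) x
      have h6 := actp hco (hC γ hγ) x
      ext i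
      fin_cases i
      · change (rot γ * (pp x + w) + be γ * (x 2 : ℂ) + tt γ).re = γ x 0 + (rot γ * w).re
        have h7 : γ x 0 = (rot γ * pp x + be γ * (x 2 : ℂ) + tt γ).re := congrArg Complex.re h6
        rw [h7, mul_add, ← Complex.add_re]
        congr 1
        ring
      · change (rot γ * (pp x + w) + be γ * (x 2 : ℂ) + tt γ).im = γ x 1 + (rot γ * w).im
        have h7 : γ x 1 = (rot γ * pp x + be γ * (x 2 : ℂ) + tt γ).im := congrArg Complex.im h6
        rw [h7, mul_add, ← Complex.add_im]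
        congr 1
        ring
      · change chi γ * x 2 + cc γ = γ x 2 + 0
        rw [h5, add_zero]
    have h3 : γ x + pt (rot γ * w) 0 ∈ D.Ω := by
      apply hth
      rw [Metric.mem_thickening_iff]
      refine ⟨γ x, hγx, ?_⟩
      rw [dist_eq_norm, add_sub_cancel_left]
      refine lt_of_le_of_lt ?_ hw
      have h4 : ‖rot γ * w‖ = ‖w‖ := by rw [norm_mul, hr, one_mul]
      rw [← h4, pi_norm_le_iff_of_nonneg (norm_nonneg _)]
      intro i
      fin_cases i
      · exact Complex.abs_re_le_norm _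
      · exact Complex.abs_im_le_norm _
      · change ‖(0 : ℝ)‖ ≤ _
        rw [norm_zero]
        exact norm_nonneg _
    rw [← h2] at h3
    by_contra h5
    exact ((hK D).2 γ hγ _).2 h5 h3
  have hall : ∀ x ∈ D.Ω, ∀ w : ℂ, x + pt w 0 ∈ D.Ω := by
    intro x hx w
    obtain ⟨n, hn⟩ := exists_nat_gt (‖w‖ / ε)
    have hn0 : (0 : ℝ) < n := lt_of_le_of_lt (div_nonneg (norm_nonneg _) hε.le) hn
    have hw : ‖w / n‖ < ε := by
      rw [norm_div, Complex.norm_natCast, div_lt_iff₀ hn0]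
      rw [div_lt_iff₀ hε] at hn
      linarith
    have hk : ∀ k : ℕ, x + pt (k * (w / n)) 0 ∈ D.Ω := by
      intro k
      induction k with
      | zero =>
        have : pt (((0 : ℕ) : ℂ) * (w / n)) 0 = 0 := by
          simp only [Nat.cast_zero, zero_mul]
          ext i
          fin_cases i <;> rfl
        rw [this, add_zero]
        exact hx
      | succ k ih =>
        have h2 := hdisc _ ih (w / n) hw
        have h3 : x + pt (k * (w / n)) 0 + pt (w / n) 0 = x + pt ((k + 1 : ℕ) * (w / n)) 0 := by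
          rw [add_assoc]
          congr 1
          have h4 : ((k + 1 : ℕ) : ℂ) * (w / n) = k * (w / n) + w / n := by push_cast; ring
          rw [h4]
          ext i
          fin_cases i
          · exact (Complex.add_re _ _).symm
          · exact (Complex.add_im _ _).symm
          · change (0 : ℝ) + 0 = 0
            simp
        rwa [h3] at h2
    have h2 := hk n
    have h3 : (n : ℂ) * (w / n) = w := by
      rw [mul_comm]
      exact div_mul_cancel₀ _ (by exact_mod_cast hn0.ne')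
    rwa [h3] at h2
  refine hplane D (e 2) ?_ ?_
  · intro h
    have := congrFun h 2
    simp [e] at this
  · intro x hx w hw
    have hw2 : w 2 = 0 := by simpa [e] using hw
    have h2 := hall x hx (pp w)
    rwa [← hw2, pt_eta] at h2

/-- An invariant plane with conformal block. -/
theorem S1 (hcontr : S_contr) (hF1 : S_F1) (hF2 : S_F2) (hP1 : S_P1) (hK : S_K) (hcof : S_cof)
    (hplane : S_planeInv) (hconj : S_conj) (hnd : S_nondisc) (hco : S_coord) : S_S1 := by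
  intro D hline hconf
  have hC : ∀ γ ∈ D.Γ, Cf γ := fun γ hγ =>
    ⟨(hline γ hγ).1, (hline γ hγ).2, (hconf γ hγ).1, (hconf γ hγ).2.1⟩
  by_cases h : ∀ γ ∈ D.Γ, chi γ = 1
  · exact chione hK hplane hco D hC h
  · exfalso
    push Not at h
    obtain ⟨γ, hγ, hγ1⟩ := h
    have hpos : 0 < chi γ := (hconf γ hγ).2.2
    rcases lt_or_gt_of_ne hγ1 with h1 | h1
    · obtain ⟨f1, -⟩ := inv_facts hco (hC γ hγ) (hC _ (inv_mem hγ))
      refine nochi hcontr hF1 hF2 hP1 hK hcof hconj hnd hco D hC γ⁻¹ (inv_mem hγ) ?_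
      have h2 : 0 < chi γ⁻¹ := (hconf _ (inv_mem hγ)).2.2
      by_contra h3
      push Not at h3
      nlinarith
    · exact nochi hcontr hF1 hF2 hP1 hK hcof hconj hnd hco D hC γ hγ h1

end Pool.Agent.Helper40.K3.S1
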