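import Pool.Agent.Helper77.K3.DefsII

/-!
# Kleinian structures in dimension three: conformal block on the quotient by an invariant line
-/

set_option autoImplicit false

open Set Filter Topology Matrix

namespace Pool.Agent.Helper40.K3.S2

open Pool.Agent.Helper77.K3

/-- The line spanned by `e 0` is invariant and the quotient block is conformal. -/
def Cf (γ : Aff3) : Prop :=
  lin γ 1 0 = 0 ∧ lin γ 2 0 = 0 ∧ lin γ 1 1 = lin γ 2 2 ∧ lin γ 1 2 = -lin γ 2 1

def lam (γ : Aff3) : ℝ := lin γ 0 0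
def rot (γ : Aff3) : ℂ := ⟨lin γ 1 1, lin γ 2 1⟩
def bh (γ : Aff3) : ℂ := ⟨lin γ 0 1, -lin γ 0 2⟩
def sh (γ : Aff3) : ℝ := tr γ 0
def tt (γ : Aff3) : ℂ := ⟨tr γ 1, tr γ 2⟩

/-- Second coordinate. -/
def qq (x : E) : ℂ := ⟨x 1, x 2⟩

/-- The point with coordinates `x`, `q`. -/
def pt (x : ℝ) (q : ℂ) : E := ![x, q.re, q.im]

lemma pt_zero (x : ℝ) (q : ℂ) : pt x q 0 = x := rfl
lemma qq_pt (x : ℝ) (q : ℂ) : qq (pt x q) = q := rfl
lemma pt_eta (x : E) : pt (x 0) (qq x) = x := by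
  ext i
  fin_cases i <;> rfl

lemma cpt (a b : ℝ) : (⟨a, b⟩ : ℂ).re = a ∧ (⟨a, b⟩ : ℂ).im = b := ⟨rfl, rfl⟩

lemma act0 (hco : S_coord) (γ : Aff3) (x : E) :
    γ x 0 = lam γ * x 0 + (bh γ * qq x).re + sh γ := by
  rw [hco.1, Complex.mul_re]
  simp only [lam, bh, qq, sh]
  ring

lemma actq (hco : S_coord) {γ : Aff3} (h : Cf γ) (x : E) :
    qq (γ x) = rot γ * qq x + tt γ := by
  obtain ⟨h1, h2, h3, h4⟩ := h
  apply Complex.ext
  · simp only [qq, rot, tt, Complex.add_re, Complex.mul_re]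
    rw [hco.1, h1, h4]
    ring
  · simp only [qq, rot, tt, Complex.add_im, Complex.mul_im]
    rw [hco.1, h2, ← h3]
    ring

lemma cf_mul (hco : S_coord) {γ δ : Aff3} (h : Cf γ) (h' : Cf δ) : Cf (γ * δ) := by
  obtain ⟨h1, h2, h3, h4⟩ := h
  obtain ⟨k1, k2, k3, k4⟩ := h'
  have hm := hco.2.1
  refine ⟨?_, ?_, ?_, ?_⟩
  · rw [hm, h1, k1, k2]; ring
  · rw [hm, h2, k1, k2]; ring
  · rw [hm, hm, h1, h2, k4, h4, k3, h3]; ring
  · rw [hm, hm, h1, h2, k4, h4, k3, h3]; ring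

lemma lam_mul (hco : S_coord) {γ δ : Aff3} (h' : Cf δ) : lam (γ * δ) = lam γ * lam δ := by
  obtain ⟨k1, k2, k3, k4⟩ := h'
  simp only [lam]
  rw [hco.2.1, k1, k2]
  ring

lemma rot_mul (hco : S_coord) {γ δ : Aff3} (h : Cf γ) (h' : Cf δ) :
    rot (γ * δ) = rot γ * rot δ := by
  obtain ⟨h1, h2, h3, h4⟩ := h
  obtain ⟨k1, k2, k3, k4⟩ := h'
  have hm := hco.2.1
  apply Complex.ext
  · simp only [rot, Complex.mul_re]
    rw [hm, h1, h4]; ring
  · simp only [rot, Complex.mul_im]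
    rw [hm, h2, ← h3]; ring

lemma bh_mul (hco : S_coord) {γ δ : Aff3} (h' : Cf δ) :
    bh (γ * δ) = (lam γ : ℂ) * bh δ + bh γ * rot δ := by
  obtain ⟨k1, k2, k3, k4⟩ := h'
  have hm := hco.2.1
  apply Complex.ext
  · simp only [bh, rot, lam, Complex.add_re, Complex.mul_re, Complex.ofReal_re, Complex.ofReal_im]
    rw [hm]; ring
  · simp only [bh, rot, lam, Complex.add_im, Complex.mul_im, Complex.ofReal_re, Complex.ofReal_im]
    rw [hm, k4, ← k3]; ring

lemma sh_mul (hco : S_coord) (γ δ : Aff3) :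
    sh (γ * δ) = lam γ * sh δ + (bh γ * tt δ).re + sh γ := by
  simp only [sh, lam, bh, tt, Complex.mul_re]
  rw [hco.2.2.1]
  ring

lemma tt_mul (hco : S_coord) {γ δ : Aff3} (h : Cf γ) :
    tt (γ * δ) = rot γ * tt δ + tt γ := by
  obtain ⟨h1, h2, h3, h4⟩ := h
  apply Complex.ext
  · simp only [tt, rot, Complex.add_re, Complex.mul_re]
    rw [hco.2.2.1, h1, h4]; ring
  · simp only [tt, rot, Complex.add_im, Complex.mul_im]
    rw [hco.2.2.1, h2, ← h3]; ring

lemma ext' (hco : S_coord) {γ δ : Aff3} (h : Cf γ) (h' : Cf δ) (h0 : lam γ = lam δ)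
    (h1 : rot γ = rot δ) (h2 : bh γ = bh δ) (h3 : sh γ = sh δ) (h4 : tt γ = tt δ) : γ = δ := by
  obtain ⟨a1, a2, a3, a4⟩ := h
  obtain ⟨k1, k2, k3, k4⟩ := h'
  have r1 := congrArg Complex.re h1
  have r2 := congrArg Complex.im h1
  have r3 := congrArg Complex.re h2
  have r4 := congrArg Complex.im h2
  have r5 := congrArg Complex.re h4
  have r6 := congrArg Complex.im h4
  simp only [rot, bh, tt, lam, sh] at r1 r2 r3 r4 r5 r6 h0 h3
  apply hco.2.2.2.1
  · intro i j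
    fin_cases i <;> fin_cases j
    · exact h0
    · exact r3
    · exact neg_injective r4
    · exact a1.trans k1.symm
    · exact r1
    · change lin γ 1 2 = lin δ 1 2
      rw [a4, k4, r2]
    · exact a2.trans k2.symm
    · exact r2
    · change lin γ 2 2 = lin δ 2 2
      rw [← a3, ← k3, r1]
  · intro i
    fin_cases i
    · exact h3
    · exact r5
    · exact r6

lemma mat_one_apply (hco : S_coord) (i j : Fin 3) : lin 1 i j = if i = j then 1 else 0 := by
  have h := congrFun (congrFun hco.2.2.2.2.2.1 i) j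
  rw [Matrix.one_apply] at h
  exact h

lemma tr_one (i : Fin 3) : tr 1 i = 0 := rfl

lemma cf_one (hco : S_coord) : Cf 1 := by
  refine ⟨?_, ?_, ?_, ?_⟩ <;> simp [mat_one_apply hco]

lemma lam_one (hco : S_coord) : lam 1 = 1 := by simp [lam, mat_one_apply hco]

lemma rot_one (hco : S_coord) : rot 1 = 1 := by
  apply Complex.ext <;> simp [rot, mat_one_apply hco]

lemma bh_one (hco : S_coord) : bh 1 = 0 := by
  apply Complex.ext <;> simp [bh, mat_one_apply hco]

lemma sh_one : sh 1 = 0 := rfl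

lemma tt_one : tt 1 = 0 := rfl

/-- Existence of elements with given data. -/
lemma exists_cf (hco : S_coord) (l : ℝ) (a b t : ℂ) (s : ℝ) (hl : l ≠ 0) (ha : a ≠ 0) :
    ∃ γ : Aff3, Cf γ ∧ lam γ = l ∧ rot γ = a ∧ bh γ = b ∧ sh γ = s ∧ tt γ = t := by
  have hdet : (!![l, b.re, -b.im; 0, a.re, -a.im; 0, a.im, a.re] : M3).det ≠ 0 := by
    rw [Matrix.det_fin_three]
    simp only [Matrix.of_apply, Matrix.cons_val', Matrix.cons_val_zero, Matrix.cons_val_one,
      Matrix.cons_val, Matrix.cons_val_fin_one]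
    have h : a.re * a.re + a.im * a.im ≠ 0 := by
      have := Complex.normSq_pos.2 ha
      rw [Complex.normSq_apply] at this
      exact this.ne'
    intro h1
    apply h
    have : l * (a.re * a.re + a.im * a.im) = 0 := by linarith
    exact (mul_eq_zero.1 this).resolve_left hl
  obtain ⟨γ, h1, h2, -⟩ := hco.2.2.2.2.2.2.2.2.2 _ ![s, t.re, t.im] hdet
  have h3 : ∀ i j, lin γ i j = (!![l, b.re, -b.im; 0, a.re, -a.im; 0, a.im, a.re] : M3) i j :=
    fun i j => congrFun (congrFun h1 i) j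
  refine ⟨γ, ⟨h3 1 0, h3 2 0, ?_, ?_⟩, h3 0 0, ?_, ?_, h2 0, ?_⟩
  · rw [h3, h3]; rfl
  · rw [h3, h3]; rfl
  · exact Complex.ext (h3 1 1) (h3 2 1)
  · refine Complex.ext (h3 0 1) ?_
    change -lin γ 0 2 = b.im
    rw [h3]
    exact neg_neg _
  · exact Complex.ext (h2 1) (h2 2)

/-- Determinant. -/
lemma det_eq (hco : S_coord) {γ : Aff3} (h : Cf γ)
    (hd : |LinearMap.det (γ.linear : E →ₗ[ℝ] E)| = 1) :
    |lam γ| * Complex.normSq (rot γ) = 1 := by
  obtain ⟨h1, h2, h3, h4⟩ := h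
  rw [← hco.2.2.2.2.2.2.2.1 γ, Matrix.det_fin_three] at hd
  have h5 : mat γ 0 0 * mat γ 1 1 * mat γ 2 2 - mat γ 0 0 * mat γ 1 2 * mat γ 2 1 -
      mat γ 0 1 * mat γ 1 0 * mat γ 2 2 + mat γ 0 1 * mat γ 1 2 * mat γ 2 0 +
      mat γ 0 2 * mat γ 1 0 * mat γ 2 1 - mat γ 0 2 * mat γ 1 1 * mat γ 2 0 =
      lam γ * Complex.normSq (rot γ) := by
    have hm : ∀ i j, mat γ i j = lin γ i j := fun i j => rfl
    simp only [hm, lam, rot, Complex.normSq_apply]
    rw [h1, h2, h4, ← h3]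
    ring
  rw [h5, abs_mul, abs_of_nonneg (Complex.normSq_nonneg _)] at hd
  exact hd

/-! ## Diagonal elements and conjugation -/

/-- `γ` fixes the origin and is `l` on `e 0` and multiplication by `a` on the complement. -/
def IsD (γ : Aff3) (l : ℝ) (a : ℂ) : Prop :=
  Cf γ ∧ lam γ = l ∧ rot γ = a ∧ bh γ = 0 ∧ sh γ = 0 ∧ tt γ = 0

lemma isD_mul (hco : S_coord) {γ δ : Aff3} {l l' : ℝ} {a a' : ℂ} (h : IsD γ l a)
    (h' : IsD δ l' a') : IsD (γ * δ) (l * l') (a * a') := by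
  obtain ⟨h0, h1, h2, h3, h4, h5⟩ := h
  obtain ⟨k0, k1, k2, k3, k4, k5⟩ := h'
  refine ⟨cf_mul hco h0 k0, ?_, ?_, ?_, ?_, ?_⟩
  · rw [lam_mul hco k0, h1, k1]
  · rw [rot_mul hco h0 k0, h2, k2]
  · rw [bh_mul hco k0, h3, k3]; simp
  · rw [sh_mul hco, h3, h4, k4]; simp
  · rw [tt_mul hco h0, h5, k5]; simp

lemma isD_one (hco : S_coord) : IsD 1 1 1 :=
  ⟨cf_one hco, lam_one hco, rot_one hco, bh_one hco, sh_one, tt_one⟩

lemma isD_pow (hco : S_coord) {γ : Aff3} {l : ℝ} {a : ℂ} (h : IsD γ l a) (n : ℕ) :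
    IsD (γ ^ n) (l ^ n) (a ^ n) := by
  induction n with
  | zero => simpa using isD_one hco
  | succ n ih =>
    rw [pow_succ, pow_succ, pow_succ]
    exact isD_mul hco ih h

lemma isD_inv (hco : S_coord) {γ : Aff3} {l : ℝ} {a : ℂ} (h : IsD γ l a) (hi : Cf γ⁻¹) :
    IsD γ⁻¹ l⁻¹ a⁻¹ := by
  obtain ⟨h0, h1, h2, h3, h4, h5⟩ := h
  have e1 : lam γ * lam γ⁻¹ = 1 := by rw [← lam_mul hco hi, mul_inv_cancel, lam_one hco]
  have e2 : rot γ * rot γ⁻¹ = 1 := by rw [← rot_mul hco h0 hi, mul_inv_cancel, rot_one hco]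
  have hl : lam γ ≠ 0 := left_ne_zero_of_mul_eq_one e1
  have ha : rot γ ≠ 0 := left_ne_zero_of_mul_eq_one e2
  have e3 : (lam γ : ℂ) * bh γ⁻¹ + bh γ * rot γ⁻¹ = 0 := by
    rw [← bh_mul hco hi, mul_inv_cancel, bh_one hco]
  have e4 : rot γ * tt γ⁻¹ + tt γ = 0 := by
    rw [← tt_mul hco h0, mul_inv_cancel, tt_one]
  have e5 : lam γ * sh γ⁻¹ + (bh γ * tt γ⁻¹).re + sh γ = 0 := by
    rw [← sh_mul hco, mul_inv_cancel, sh_one]
  refine ⟨hi, ?_, ?_, ?_, ?_, ?_⟩
  · rw [← h1]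
    exact (inv_eq_of_mul_eq_one_right e1).symm
  · rw [← h2]
    exact (inv_eq_of_mul_eq_one_right e2).symm
  · rw [h3, zero_mul, add_zero] at e3
    exact (mul_eq_zero.1 e3).resolve_left (by exact_mod_cast hl)
  · rw [h3, h4, zero_mul, Complex.zero_re, add_zero, add_zero] at e5
    exact (mul_eq_zero.1 e5).resolve_left hl
  · rw [h5, add_zero] at e4
    exact (mul_eq_zero.1 e4).resolve_left ha

/-- Conjugation by a diagonal element. -/
lemma conjD (hco : S_coord) {g g' τ : Aff3} {l l' : ℝ} {a a' : ℂ} (h : IsD g l a)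
    (h' : IsD g' l' a') (hτ : Cf τ) :
    Cf (g * τ * g') ∧ lam (g * τ * g') = l * l' * lam τ ∧ rot (g * τ * g') = a * a' * rot τ ∧
      bh (g * τ * g') = l * bh τ * a' ∧ sh (g * τ * g') = l * sh τ ∧
      tt (g * τ * g') = a * tt τ := by
  obtain ⟨h0, h1, h2, h3, h4, h5⟩ := h
  obtain ⟨k0, k1, k2, k3, k4, k5⟩ := h'
  have hc := cf_mul hco h0 hτ
  refine ⟨cf_mul hco hc k0, ?_, ?_, ?_, ?_, ?_⟩
  · rw [lam_mul hco k0, lam_mul hco hτ, h1, k1]; ring
  · rw [rot_mul hco hc k0, rot_mul hco h0 hτ, h2, k2]; ring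
  · rw [bh_mul hco k0, bh_mul hco hτ, h1, h3, k2, k3]; ring
  · rw [sh_mul hco, sh_mul hco, h1, h3, h4, k4, k5]; simp
  · rw [tt_mul hco hc, tt_mul hco h0, h2, h5, k5]; simp

lemma tendsto_pt {f : ℕ → ℝ} {u : ℕ → ℂ} {x : ℝ} {q : ℂ} (hf : Tendsto f atTop (𝓝 x))
    (hu : Tendsto u atTop (𝓝 q)) : Tendsto (fun n => pt (f n) (u n)) atTop (𝓝 (pt x q)) := by
  rw [tendsto_pi_nhds]
  intro i
  fin_cases i
  · exact hf
  · exact (Complex.continuous_re.tendsto _).comp hu
  · exact (Complex.continuous_im.tendsto _).comp hu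

lemma lin_tendsto {σ : ℕ → Aff3} (hC : ∀ n, Cf (σ n))
    (h0 : Tendsto (fun n => lam (σ n)) atTop (𝓝 1))
    (h1 : Tendsto (fun n => rot (σ n)) atTop (𝓝 1))
    (h2 : Tendsto (fun n => bh (σ n)) atTop (𝓝 0))
    (h3 : Tendsto (fun n => sh (σ n)) atTop (𝓝 0))
    (h4 : Tendsto (fun n => tt (σ n)) atTop (𝓝 0)) :
    (∀ i j, Tendsto (fun n => lin (σ n) i j) atTop (𝓝 (if i = j then 1 else 0))) ∧
      (∀ i, Tendsto (fun n => tr (σ n) i) atTop (𝓝 0)) := by
  have r1 : Tendsto (fun n => lin (σ n) 1 1) atTop (𝓝 1) :=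
    (Complex.continuous_re.tendsto _).comp h1
  have r2 : Tendsto (fun n => lin (σ n) 2 1) atTop (𝓝 0) :=
    (Complex.continuous_im.tendsto _).comp h1
  have r3 : Tendsto (fun n => lin (σ n) 0 1) atTop (𝓝 0) :=
    (Complex.continuous_re.tendsto _).comp h2
  have r4 : Tendsto (fun n => lin (σ n) 0 2) atTop (𝓝 0) := by
    have h := ((Complex.continuous_im.tendsto _).comp h2).neg
    have h' : Tendsto (fun n => - -lin (σ n) 0 2) atTop (𝓝 (-(0 : ℂ).im)) := h
    simpa using h'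
  constructor
  · intro i j
    fin_cases i <;> fin_cases j
    · exact h0
    · simpa using r3
    · simpa using r4
    · have : (fun n => lin (σ n) 1 0) = fun _ => 0 := funext fun n => (hC n).1
      simp [this]
    · simpa using r1
    · have : (fun n => lin (σ n) 1 2) = fun n => -lin (σ n) 2 1 := funext fun n => (hC n).2.2.2
      simpa [this] using r2.neg
    · have : (fun n => lin (σ n) 2 0) = fun _ => 0 := funext fun n => (hC n).2.1
      simp [this]
    · simpa using r2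
    · have : (fun n => lin (σ n) 2 2) = fun n => lin (σ n) 1 1 :=
        funext fun n => (hC n).2.2.1.symm
      simpa [this] using r1
  · intro i
    fin_cases i
    · exact h3
    · exact (Complex.continuous_re.tendsto _).comp h4
    · exact (Complex.continuous_im.tendsto _).comp h4

lemma inv_facts (hco : S_coord) {γ : Aff3} (h : Cf γ) (hi : Cf γ⁻¹) :
    lam γ * lam γ⁻¹ = 1 ∧ rot γ * rot γ⁻¹ = 1 ∧ rot γ * tt γ⁻¹ + tt γ = 0 := by
  refine ⟨?_, ?_, ?_⟩
  · rw [← lam_mul hco hi, mul_inv_cancel, lam_one hco]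
  · rw [← rot_mul hco h hi, mul_inv_cancel, rot_one hco]
  · rw [← tt_mul hco h, mul_inv_cancel, tt_one]

/-- No element with `lam > 1` which is diagonal. -/
theorem main (hcontr : S_contr) (hF1 : S_F1) (hF2 : S_F2) (hP1 : S_P1) (hK : S_K) (hcof : S_cof)
    (hnd : S_nondisc) (hco : S_coord) (D : KData) (hC : ∀ γ ∈ D.Γ, Cf γ)
    (g : Aff3) (hg : g ∈ D.Γ) (hl : 1 < lam g) (hb : bh g = 0) (hs : sh g = 0) (ht : tt g = 0) :
    False := by
  have hgD : IsD g (lam g) (rot g) := ⟨hC g hg, rfl, rfl, hb, hs, ht⟩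
  have hgi : g⁻¹ ∈ D.Γ := inv_mem hg
  have hgiD := isD_inv hco hgD (hC _ hgi)
  obtain ⟨l, hldef⟩ : ∃ l, l = lam g := ⟨_, rfl⟩
  obtain ⟨a, hadef⟩ : ∃ a, a = rot g := ⟨_, rfl⟩
  rw [← hldef, ← hadef] at hgD hgiD
  rw [← hldef] at hl
  have hl0 : 0 < l := by linarith
  have hna : ‖a‖ < 1 := by
    have h1 := det_eq hco (hC g hg) (D.det g hg)
    rw [← hldef, ← hadef, abs_of_pos hl0, Complex.normSq_eq_norm_sq] at h1
    by_contra h2
    push Not at h2
    have h3 : 1 ≤ ‖a‖ ^ 2 := one_le_pow₀ h2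
    nlinarith
  have ha0 : a ≠ 0 := by
    intro h
    have h1 := det_eq hco (hC g hg) (D.det g hg)
    rw [← hadef, h, Complex.normSq_zero, mul_zero] at h1
    exact zero_ne_one h1
  have hpa : Tendsto (fun n : ℕ => a ^ n) atTop (𝓝 0) :=
    tendsto_pow_atTop_nhds_zero_of_norm_lt_one hna
  have hpl : Tendsto (fun n : ℕ => (l⁻¹) ^ n) atTop (𝓝 0) :=
    tendsto_pow_atTop_nhds_zero_of_lt_one (inv_nonneg.2 hl0.le) (inv_lt_one_of_one_lt₀ hl)
  have hgcof : Tendsto (fun n : ℕ => g ^ n) atTop cofinite := by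
    apply hcof.1
    refine ⟨0, 0, ?_⟩
    have h1 : (fun n : ℕ => |lin (g ^ n) 0 0|) = fun n : ℕ => l ^ n := by
      funext n
      have h2 : lin (g ^ n) 0 0 = l ^ n := (isD_pow hco hgD n).2.1
      rw [h2, abs_of_pos (pow_pos hl0 n)]
    rw [h1]
    exact tendsto_pow_atTop_atTop_of_one_lt hl
  -- the axis is in `K`
  have hK0 : ∀ x : ℝ, pt x 0 ∈ D.K := by
    intro x
    obtain ⟨y, hy, hy0⟩ := hF2 D (e 0) 0 (by
      intro h
      have := congrFun h 0
      simp [e] at this)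
    have hy0' : y 0 = 0 := by simpa [e] using hy0
    have h1 := hP1 D (fun n => g ^ n) (fun n => pt ((l⁻¹) ^ n * x) (qq y)) y (pt x 0)
      (fun n => pow_mem hg n) hgcof (by
        have h2 : Tendsto (fun n : ℕ => (l⁻¹) ^ n * x) atTop (𝓝 0) := by
          simpa using hpl.mul_const x
        have h3 := tendsto_pt h2 (tendsto_const_nhds (x := qq y))
        rwa [← hy0', pt_eta] at h3) (by
        have h2 : (fun n => (g ^ n) (pt ((l⁻¹) ^ n * x) (qq y))) =
            fun n : ℕ => pt x (a ^ n * qq y) := by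
          funext n
          obtain ⟨k0, k1, k2, k3, k4, k5⟩ := isD_pow hco hgD n
          rw [← pt_eta ((g ^ n) (pt ((l⁻¹) ^ n * x) (qq y))), act0 hco, actq hco k0, k1, k2, k3, k4,
            k5, pt_zero, qq_pt]
          have h3 : l ^ n * ((l⁻¹) ^ n * x) = x := by
            rw [← mul_assoc, ← mul_pow, mul_inv_cancel₀ hl0.ne', one_pow, one_mul]
          rw [h3]
          simp
        rw [h2]
        refine tendsto_pt tendsto_const_nhds ?_
        simpa using hpa.mul_const (qq y))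
    rcases h1 with h1 | h1
    · exact absurd hy h1
    · exact h1
  -- elements which act trivially on the quotient
  have triv : ∀ τ ∈ D.Γ, lam τ = 1 → rot τ = 1 → tt τ = 0 → τ = 1 := by
    intro τ hτ h1 h2 h3
    have hcj : ∀ n : ℕ, Cf (g⁻¹ ^ n * τ * g ^ n) ∧ lam (g⁻¹ ^ n * τ * g ^ n) = 1 ∧
        rot (g⁻¹ ^ n * τ * g ^ n) = 1 ∧ bh (g⁻¹ ^ n * τ * g ^ n) =
          ((l⁻¹) ^ n : ℝ) * bh τ * a ^ n ∧ sh (g⁻¹ ^ n * τ * g ^ n) = (l⁻¹) ^ n * sh τ ∧
          tt (g⁻¹ ^ n * τ * g ^ n) = 0 := by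
      intro n
      obtain ⟨k0, k1, k2, k3, k4, k5⟩ := conjD hco (isD_pow hco hgiD n) (isD_pow hco hgD n)
        (hC τ hτ)
      refine ⟨k0, ?_, ?_, k3, k4, ?_⟩
      · rw [k1, h1, mul_one, ← mul_pow, inv_mul_cancel₀ hl0.ne', one_pow]
      · rw [k2, h2, mul_one, ← mul_pow, inv_mul_cancel₀ ha0, one_pow]
      · rw [k5, h3, mul_zero]
    have hmem : ∀ n : ℕ, g⁻¹ ^ n * τ * g ^ n ∈ D.Γ := fun n =>
      mul_mem (mul_mem (pow_mem hgi n) hτ) (pow_mem hg n)
    obtain ⟨l1, l2⟩ := lin_tendsto (σ := fun n => g⁻¹ ^ n * τ * g ^ n) (fun n => (hcj n).1)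
      (by simp only [(hcj _).2.1]; exact tendsto_const_nhds)
      (by simp only [(hcj _).2.2.1]; exact tendsto_const_nhds)
      (by
        simp only [(hcj _).2.2.2.1]
        have h4 : Tendsto (fun n : ℕ => (((l⁻¹) ^ n : ℝ) : ℂ)) atTop (𝓝 ((0 : ℝ) : ℂ)) :=
          (Complex.continuous_ofReal.tendsto _).comp hpl
        have h5 := (h4.mul_const (bh τ)).mul hpa
        simpa using h5)
      (by
        simp only [(hcj _).2.2.2.2.1]
        simpa using hpl.mul_const (sh τ))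
      (by simp only [(hcj _).2.2.2.2.2]; exact tendsto_const_nhds)
    obtain ⟨n, hn⟩ := (hcontr D _ hmem l1 l2).exists
    have hn' : (g ^ n)⁻¹ * τ * g ^ n = 1 := by rw [← inv_pow]; exact hn
    calc τ = g ^ n * ((g ^ n)⁻¹ * τ * g ^ n) * (g ^ n)⁻¹ := by group
      _ = 1 := by rw [hn']; group
  -- the translations
  let T : AddSubgroup (Fin 2 → ℝ) :=
    { carrier := {v | ∃ τ ∈ D.Γ, lam τ = 1 ∧ rot τ = 1 ∧ tt τ = ⟨v 0, v 1⟩}
      zero_mem' := ⟨1, one_mem _, lam_one hco, rot_one hco, rfl⟩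
      add_mem' := by
        rintro v w ⟨τ, h0, h1, h2, h3⟩ ⟨σ, k0, k1, k2, k3⟩
        refine ⟨τ * σ, mul_mem h0 k0, ?_, ?_, ?_⟩
        · rw [lam_mul hco (hC σ k0), h1, k1, mul_one]
        · rw [rot_mul hco (hC τ h0) (hC σ k0), h2, k2, mul_one]
        · rw [tt_mul hco (hC τ h0), h2, h3, k3, one_mul, add_comm]
          rfl
      neg_mem' := by
        rintro v ⟨τ, h0, h1, h2, h3⟩
        obtain ⟨f1, f2, f3⟩ := inv_facts hco (hC τ h0) (hC _ (inv_mem h0))
        rw [h1, one_mul] at f1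
        rw [h2, one_mul] at f2
        rw [h2, one_mul, h3] at f3
        refine ⟨τ⁻¹, inv_mem h0, f1, f2, ?_⟩
        rw [eq_neg_of_add_eq_zero_left f3]
        rfl }
  have hTK : ∀ v ∈ T, ∀ x : ℝ, (![x, v 0, v 1] : E) ∈ D.K := by
    rintro v ⟨τ, h0, h1, h2, h3⟩ x
    have e1 : (![x, v 0, v 1] : E) = pt x (tt τ) := by rw [h3]; rfl
    have e2 : pt x (tt τ) = τ (τ⁻¹ (pt x (tt τ))) := (AffineEquiv.apply_symm_apply τ _).symm
    have e3 : qq (τ⁻¹ (pt x (tt τ))) = 0 := by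
      have h4 := actq hco (hC τ h0) (τ⁻¹ (pt x (tt τ)))
      rw [← e2, qq_pt, h2, one_mul] at h4
      exact right_eq_add.1 h4
    rw [e1, e2, (hK D).2 τ h0, ← pt_eta (τ⁻¹ (pt x (tt τ))), e3]
    exact hK0 _
  have hTcl : ∀ v ∈ closure (T : Set (Fin 2 → ℝ)), ∀ x : ℝ, (![x, v 0, v 1] : E) ∈ D.K := by
    intro v hv x
    have h1 : IsClosed {v : Fin 2 → ℝ | (![x, v 0, v 1] : E) ∈ D.K} := by
      refine (hK D).1.preimage ?_
      refine continuous_pi fun i => ?_
      fin_cases i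
      · exact continuous_const
      · exact continuous_apply 0
      · exact continuous_apply 1
    exact closure_minimal (fun v hv => hTK v hv x) h1 hv
  -- no translations on the quotient
  have hT : ∀ τ ∈ D.Γ, lam τ = 1 → rot τ = 1 → tt τ = 0 := by
    intro τ hτ h1 h2
    by_contra h3
    obtain ⟨w, hw, hwT⟩ := hnd T (by
      intro ε hε
      have h4 : Tendsto (fun n : ℕ => ‖a ^ n * tt τ‖) atTop (𝓝 0) := by
        have h5 := (hpa.mul_const (tt τ)).norm
        simpa using h5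
      obtain ⟨n, hn⟩ := (h4.eventually (gt_mem_nhds hε)).exists
      obtain ⟨k0, k1, k2, k3, k4, k5⟩ := conjD hco (isD_pow hco hgD n) (isD_pow hco hgiD n)
        (hC τ hτ)
      refine ⟨![(a ^ n * tt τ).re, (a ^ n * tt τ).im], ⟨g ^ n * τ * g⁻¹ ^ n,
        mul_mem (mul_mem (pow_mem hg n) hτ) (pow_mem hgi n), ?_, ?_, ?_⟩, ?_, ?_⟩
      · rw [k1, h1, mul_one, ← mul_pow, mul_inv_cancel₀ hl0.ne', one_pow]
      · rw [k2, h2, mul_one, ← mul_pow, mul_inv_cancel₀ ha0, one_pow]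
      · rw [k5]; rfl
      · intro h6
        have h7 : a ^ n * tt τ ≠ 0 := mul_ne_zero (pow_ne_zero _ ha0) h3
        apply h7
        apply Complex.ext
        · exact congrFun h6 0
        · exact congrFun h6 1
      · refine lt_of_le_of_lt ?_ hn
        rw [pi_norm_le_iff_of_nonneg (norm_nonneg _)]
        intro i
        fin_cases i
        · exact Complex.abs_re_le_norm _
        · exact Complex.abs_im_le_norm _)
    have hww : 0 < w 0 * w 0 + w 1 * w 1 := by
      by_contra h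
      apply hw
      have h0 : w 0 = 0 := by nlinarith [mul_self_nonneg (w 0), mul_self_nonneg (w 1)]
      have h1 : w 1 = 0 := by nlinarith [mul_self_nonneg (w 0), mul_self_nonneg (w 1)]
      ext i
      fin_cases i
      · exact h0
      · exact h1
    obtain ⟨y, hy, hy0⟩ := hF2 D ![0, -w 1, w 0] 0 (by
      intro h
      have h0 := congrFun h 1
      have h1 := congrFun h 2
      simp at h0 h1
      rw [h0, h1] at hww
      simp at hww)
    have hy1 : -w 1 * y 1 + w 0 * y 2 = 0 := by simpa using hy0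
    have h5 := hTcl _ (hwT ((w 0 * y 1 + w 1 * y 2) / (w 0 * w 0 + w 1 * w 1))) (y 0)
    have h6 : (![y 0, (((w 0 * y 1 + w 1 * y 2) / (w 0 * w 0 + w 1 * w 1)) • w) 0,
        (((w 0 * y 1 + w 1 * y 2) / (w 0 * w 0 + w 1 * w 1)) • w) 1] : E) = y := by
      ext i
      fin_cases i
      · rfl
      · change (w 0 * y 1 + w 1 * y 2) / (w 0 * w 0 + w 1 * w 1) * w 0 = y 1
        rw [div_mul_eq_mul_div, div_eq_iff hww.ne']
        linear_combination w 1 * hy1
      · change (w 0 * y 1 + w 1 * y 2) / (w 0 * w 0 + w 1 * w 1) * w 1 = y 2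
        rw [div_mul_eq_mul_div, div_eq_iff hww.ne']
        linear_combination -w 0 * hy1
    rw [h6] at h5
    exact h5 hy
  have hT1 : ∀ τ ∈ D.Γ, lam τ = 1 → rot τ = 1 → τ = 1 := fun τ hτ h1 h2 =>
    triv τ hτ h1 h2 (hT τ hτ h1 h2)
  -- commutation in the kernel of `lam`
  have hlam0 : ∀ γ ∈ D.Γ, lam γ ≠ 0 ∧ rot γ ≠ 0 := fun γ hγ => by
    obtain ⟨f1, f2, f3⟩ := inv_facts hco (hC γ hγ) (hC _ (inv_mem hγ))
    exact ⟨left_ne_zero_of_mul_eq_one f1, left_ne_zero_of_mul_eq_one f2⟩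
  have hcomm : ∀ γ ∈ D.Γ, ∀ δ ∈ D.Γ, lam (γ * δ * γ⁻¹ * δ⁻¹) = 1 ∧ rot (γ * δ * γ⁻¹ * δ⁻¹) = 1 := by
    intro γ hγ δ hδ
    obtain ⟨f1, f2, f3⟩ := inv_facts hco (hC γ hγ) (hC _ (inv_mem hγ))
    obtain ⟨g1, g2, g3⟩ := inv_facts hco (hC δ hδ) (hC _ (inv_mem hδ))
    have c1 := hC _ (mul_mem hγ hδ)
    have c2 := hC _ (mul_mem (mul_mem hγ hδ) (inv_mem hγ))
    constructor
    · rw [lam_mul hco (hC _ (inv_mem hδ)), lam_mul hco (hC _ (inv_mem hγ)), lam_mul hco (hC _ hδ)]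
      linear_combination (lam δ * lam δ⁻¹) * f1 + g1
    · rw [rot_mul hco c2 (hC _ (inv_mem hδ)), rot_mul hco c1 (hC _ (inv_mem hγ)),
        rot_mul hco (hC _ hγ) (hC _ hδ)]
      linear_combination (rot δ * rot δ⁻¹) * f2 + g2
  have hab : ∀ γ ∈ D.Γ, ∀ δ ∈ D.Γ, γ * δ = δ * γ := by
    intro γ hγ δ hδ
    obtain ⟨h1, h2⟩ := hcomm γ hγ δ hδ
    have h3 := hT1 _ (mul_mem (mul_mem (mul_mem hγ hδ) (inv_mem hγ)) (inv_mem hδ)) h1 h2
    calc γ * δ = (γ * δ * γ⁻¹ * δ⁻¹) * (δ * γ) := by group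
      _ = δ * γ := by rw [h3, one_mul]
  -- the origin is fixed
  have hfix : ∀ h ∈ D.Γ, tt h = 0 ∧ sh h = 0 := by
    intro h hh
    have h1 := hab h hh g hg
    have h2 : tt h = a * tt h := by
      have h3 := congrArg tt h1
      rw [tt_mul hco (hC h hh), tt_mul hco (hC g hg), ht, mul_zero, zero_add, add_zero,
        ← hadef] at h3
      exact h3
    have h4 : tt h = 0 := by
      have h5 : (1 - a) * tt h = 0 := by linear_combination h2
      refine (mul_eq_zero.1 h5).resolve_left ?_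
      intro h6
      have h7 : a = 1 := by linear_combination -h6
      rw [h7, norm_one] at hna
      exact lt_irrefl _ hna
    have h8 := congrArg sh h1
    rw [sh_mul hco, sh_mul hco, ht, hs, hb, mul_zero, mul_zero, zero_mul, ← hldef,
      Complex.zero_re, zero_add, zero_add, add_zero, add_zero] at h8
    refine ⟨h4, ?_⟩
    have h9 : (1 - l) * sh h = 0 := by linear_combination h8
    refine (mul_eq_zero.1 h9).resolve_left ?_
    linarith
  have h1 := hF1 D {0} (convex_singleton 0) (singleton_nonempty 0) (by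
    intro h hh x hx
    rw [mem_singleton_iff] at hx
    subst hx
    obtain ⟨k1, k2⟩ := hfix h hh
    rw [mem_singleton_iff]
    ext i
    fin_cases i
    · exact k2
    · exact congrArg Complex.re k1
    · exact congrArg Complex.im k1)
  have h2 : (e 0 : E) ∈ ({0} : Set E) := by rw [h1]; exact mem_univ _
  rw [mem_singleton_iff] at h2
  have h3 := congrFun h2 0
  simp [e] at h3

/-- The normal form of an element with `lam > 1`. -/
theorem nolam (hcontr : S_contr) (hF1 : S_F1) (hF2 : S_F2) (hP1 : S_P1) (hK : S_K) (hcof : S_cof)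
    (hconj : S_conj) (hnd : S_nondisc) (hco : S_coord) (D : KData) (hC : ∀ γ ∈ D.Γ, Cf γ)
    (g : Aff3) (hg : g ∈ D.Γ) (hl : 1 < lam g) : False := by
  have hl0 : 0 < lam g := by linarith
  have hna : ‖rot g‖ < 1 := by
    have h1 := det_eq hco (hC g hg) (D.det g hg)
    rw [abs_of_pos hl0, Complex.normSq_eq_norm_sq] at h1
    by_contra h2
    push Not at h2
    have h3 : 1 ≤ ‖rot g‖ ^ 2 := one_le_pow₀ h2
    nlinarith
  have ha1 : (1 : ℂ) - rot g ≠ 0 := by
    intro h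
    have h7 : rot g = 1 := by linear_combination -h
    rw [h7, norm_one] at hna
    exact lt_irrefl _ hna
  have hal : rot g - (lam g : ℂ) ≠ 0 := by
    intro h
    have h7 : rot g = (lam g : ℂ) := by linear_combination h
    rw [h7, Complex.norm_real, Real.norm_eq_abs, abs_of_pos hl0] at hna
    linarith
  obtain ⟨m, hm⟩ : ∃ m : ℂ, m = bh g / (rot g - (lam g : ℂ)) := ⟨_, rfl⟩
  obtain ⟨q, hq⟩ : ∃ q : ℂ, q = tt g / (1 - rot g) := ⟨_, rfl⟩
  obtain ⟨x, hx⟩ : ∃ x : ℝ, x = -((bh g * q).re + sh g) / (lam g - 1) := ⟨_, rfl⟩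
  have em : m * (rot g - (lam g : ℂ)) = bh g := by rw [hm]; exact div_mul_cancel₀ _ hal
  have eq : q * (1 - rot g) = tt g := by rw [hq]; exact div_mul_cancel₀ _ ha1
  have ex : x * (lam g - 1) = -((bh g * q).re + sh g) := by
    rw [hx]; exact div_mul_cancel₀ _ (by linarith)
  obtain ⟨φ, p0, p1, p2, p3, p4, p5⟩ := exists_cf hco 1 1 (-m) (-q) ((m * q).re - x) one_ne_zero
    one_ne_zero
  obtain ⟨ψ, s0, s1, s2, s3, s4, s5⟩ := exists_cf hco 1 1 m q x one_ne_zero one_ne_zero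
  have hψ : ψ = φ⁻¹ := by
    apply eq_inv_of_mul_eq_one_right
    refine ext' hco (cf_mul hco p0 s0) (cf_one hco) ?_ ?_ ?_ ?_ ?_
    · rw [lam_mul hco s0, p1, s1, lam_one hco, one_mul]
    · rw [rot_mul hco p0 s0, p2, s2, rot_one hco, one_mul]
    · rw [bh_mul hco s0, p1, p3, s2, s3, bh_one hco]; simp
    · rw [sh_mul hco, p1, p3, p4, s4, s5, sh_one, neg_mul, Complex.neg_re]
      ring
    · rw [tt_mul hco p0, p2, p5, s5, tt_one]; simp
  obtain ⟨D', hΩ, hD'⟩ := hconj D φ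
  have hmem : φ * g * φ⁻¹ ∈ D'.Γ := by
    rw [hD']
    have : φ⁻¹ * (φ * g * φ⁻¹) * φ = g := by group
    rw [this]
    exact hg
  rw [← hψ] at hmem
  have hg0 := hC g hg
  refine main hcontr hF1 hF2 hP1 hK hcof hnd hco D' ?_ (φ * g * ψ) hmem ?_ ?_ ?_ ?_
  · intro γ hγ
    rw [hD'] at hγ
    have h1 := hC _ hγ
    have h2 : γ = φ * (φ⁻¹ * γ * φ) * ψ := by rw [hψ]; group
    rw [h2]
    exact cf_mul hco (cf_mul hco p0 h1) s0
  · rw [lam_mul hco s0, lam_mul hco hg0, p1, s1]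
    linarith
  · rw [bh_mul hco s0, bh_mul hco hg0, lam_mul hco hg0, p1, p3, s2, s3]
    push_cast
    linear_combination -em
  · rw [sh_mul hco, sh_mul hco, bh_mul hco hg0, lam_mul hco hg0, p1, p3, p4, s4, s5]
    have h1 : (((1 : ℝ) : ℂ) * bh g + -m * rot g) * q = bh g * q - m * rot g * q := by
      push_cast
      ring
    have h2 : (m * q).re = (m * rot g * q).re + (m * (1 - rot g) * q).re := by
      rw [← Complex.add_re]
      congr 1
      ring
    have h3 : (-m * tt g).re = -(m * (1 - rot g) * q).re := by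
      rw [← Complex.neg_re]
      congr 1
      rw [← eq]
      ring
    rw [h1, Complex.sub_re, h2, h3]
    linear_combination ex
  · rw [tt_mul hco (cf_mul hco p0 hg0), tt_mul hco p0, rot_mul hco p0 hg0, p2, p5, s5]
    linear_combination -eq

/-- Translations: the case where `lam` is trivial. -/
theorem lamone (hK : S_K) (hleafB : S_leafB) (hco : S_coord) (D : KData)
    (hC : ∀ γ ∈ D.Γ, Cf γ) (h1 : ∀ γ ∈ D.Γ, lam γ = 1) : D.Ω = univ := by
  -- invariance along the line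
  have hE : ∀ x ∈ D.Ω, ∀ t : ℝ, x + t • e 0 ∈ D.Ω := by
    refine hleafB D ⊥ (e 0) (fun _ => 1) ?_ ?_ ⟨1, fun γ _ => by simp⟩
    · intro x hx w hw
      rw [Submodule.mem_bot] at hw
      rw [hw, add_zero]
      exact hx
    · intro γ hγ
      obtain ⟨c1, c2, c3, c4⟩ := hC γ hγ
      have c0 := h1 γ hγ
      have h2 : γ.linear (e 0) = e 0 := by
        ext i
        fin_cases i
        · change lin γ 0 0 = _
          rw [show lin γ 0 0 = 1 from c0]
          rfl
        · change lin γ 1 0 = _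
          rw [c1]
          rfl
        · change lin γ 2 0 = _
          rw [c2]
          rfl
      rw [h2, one_smul, sub_self]
      exact Submodule.zero_mem _
  obtain ⟨F, hFΩ, hFc, hF⟩ := D.cocompact
  obtain ⟨ε, hε, hth⟩ := hFc.exists_thickening_subset_open D.isOpen hFΩ
  -- discs of uniform radius
  have hdisc : ∀ x ∈ D.Ω, ∀ w : ℂ, ‖w‖ < ε → x + pt 0 w ∈ D.Ω := by
    intro x hx w hw
    obtain ⟨γ, hγ, hγx⟩ := hF x hx
    have hr : ‖rot γ‖ = 1 := by
      have h2 := det_eq hco (hC γ hγ) (D.det γ hγ)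
      rw [h1 γ hγ, abs_one, one_mul, Complex.normSq_eq_norm_sq] at h2
      have h3 := norm_nonneg (rot γ)
      nlinarith
    have h2 : γ (x + pt 0 w) = (γ x + pt 0 (rot γ * w)) + (bh γ * w).re • e 0 := by
      rw [← pt_eta (γ (x + pt 0 w)), act0 hco, actq hco (hC γ hγ)]
      have h3 : qq (x + pt 0 w) = qq x + w := rfl
      have h4 : (x + pt 0 w) 0 = x 0 := by simp [pt]
      rw [h3, h4]
      have h5 := act0 hco γ x
      have h6 := actq hco (hC γ hγ) x
      ext i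
      fin_cases i
      · change lam γ * x 0 + (bh γ * (qq x + w)).re + sh γ = γ x 0 + 0 + (bh γ * w).re * 1
        rw [h5, mul_add, Complex.add_re]
        ring
      · change (rot γ * (qq x + w) + tt γ).re = γ x 1 + (rot γ * w).re + (bh γ * w).re * 0
        have h7 : γ x 1 = (rot γ * qq x + tt γ).re := congrArg Complex.re h6
        rw [h7, mul_add, Complex.add_re, Complex.add_re, Complex.add_re]
        ring
      · change (rot γ * (qq x + w) + tt γ).im = γ x 2 + (rot γ * w).im + (bh γ * w).re * 0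
        have h7 : γ x 2 = (rot γ * qq x + tt γ).im := congrArg Complex.im h6
        rw [h7, mul_add, Complex.add_im, Complex.add_im, Complex.add_im]
        ring
    have h3 : γ x + pt 0 (rot γ * w) ∈ D.Ω := by
      apply hth
      rw [Metric.mem_thickening_iff]
      refine ⟨γ x, hγx, ?_⟩
      rw [dist_eq_norm, add_sub_cancel_left]
      refine lt_of_le_of_lt ?_ hw
      have h4 : ‖rot γ * w‖ = ‖w‖ := by rw [norm_mul, hr, one_mul]
      rw [← h4, pi_norm_le_iff_of_nonneg (norm_nonneg _)]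
      intro i
      fin_cases i
      · change ‖(0 : ℝ)‖ ≤ _
        rw [norm_zero]
        exact norm_nonneg _
      · exact Complex.abs_re_le_norm _
      · exact Complex.abs_im_le_norm _
    have h4 : γ (x + pt 0 w) ∈ D.Ω := by
      rw [h2]
      exact hE _ h3 _
    by_contra h5
    exact ((hK D).2 γ hγ _).2 h5 h4
  have hall : ∀ x ∈ D.Ω, ∀ w : ℂ, x + pt 0 w ∈ D.Ω := by
    intro x hx w
    obtain ⟨n, hn⟩ := exists_nat_gt (‖w‖ / ε)
    have hn0 : (0 : ℝ) < n := lt_of_le_of_lt (div_nonneg (norm_nonneg _) hε.le) hn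
    have hw : ‖w / n‖ < ε := by
      rw [norm_div, Complex.norm_natCast, div_lt_iff₀ hn0]
      rw [div_lt_iff₀ hε] at hn
      linarith
    have hk : ∀ k : ℕ, x + pt 0 (k * (w / n)) ∈ D.Ω := by
      intro k
      induction k with
      | zero =>
        have : pt 0 (((0 : ℕ) : ℂ) * (w / n)) = 0 := by
          simp only [Nat.cast_zero, zero_mul]
          ext i
          fin_cases i <;> rfl
        rw [this, add_zero]
        exact hx
      | succ k ih =>
        have h2 := hdisc _ ih (w / n) hw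
        have h3 : x + pt 0 (k * (w / n)) + pt 0 (w / n) = x + pt 0 ((k + 1 : ℕ) * (w / n)) := by
          rw [add_assoc]
          congr 1
          have h4 : ((k + 1 : ℕ) : ℂ) * (w / n) = k * (w / n) + w / n := by push_cast; ring
          rw [h4]
          ext i
          fin_cases i
          · change (0 : ℝ) + 0 = 0
            simp
          · exact (Complex.add_re _ _).symm
          · exact (Complex.add_im _ _).symm
        rwa [h3] at h2
    have h2 := hk n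
    have h3 : (n : ℂ) * (w / n) = w := by
      rw [mul_comm]
      exact div_mul_cancel₀ _ (by exact_mod_cast hn0.ne')
    rwa [h3] at h2
  obtain ⟨x, hx⟩ := D.conn.nonempty
  ext y
  simp only [mem_univ, iff_true]
  have h2 := hE _ (hall x hx (qq y - qq x)) (y 0 - x 0)
  have h3 : x + pt 0 (qq y - qq x) + (y 0 - x 0) • e 0 = y := by
    ext i
    fin_cases i
    · change x 0 + 0 + (y 0 - x 0) * 1 = y 0
      ring
    · change x 1 + (y 1 - x 1) + (y 0 - x 0) * 0 = y 1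
      ring
    · change x 2 + (y 2 - x 2) + (y 0 - x 0) * 0 = y 2
      ring
  rwa [h3] at h2

/-- An invariant line with conformal quotient block. -/
theorem S2 (hcontr : S_contr) (hF1 : S_F1) (hF2 : S_F2) (hP1 : S_P1) (hK : S_K) (hcof : S_cof)
    (hleafB : S_leafB) (hconj : S_conj) (hnd : S_nondisc) (hco : S_coord) : S_S2 := by
  intro D hline hconf
  have hC : ∀ γ ∈ D.Γ, Cf γ := fun γ hγ =>
    ⟨(hline γ hγ).1, (hline γ hγ).2, (hconf γ hγ).1, (hconf γ hγ).2.1⟩
  by_cases h : ∀ γ ∈ D.Γ, lam γ = 1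
  · exact lamone hK hleafB hco D hC h
  · exfalso
    push Not at h
    obtain ⟨γ, hγ, hγ1⟩ := h
    have hpos : 0 < lam γ := (hconf γ hγ).2.2
    rcases lt_or_gt_of_ne hγ1 with h1 | h1
    · obtain ⟨f1, -, -⟩ := inv_facts hco (hC γ hγ) (hC _ (inv_mem hγ))
      refine nolam hcontr hF1 hF2 hP1 hK hcof hconj hnd hco D hC γ⁻¹ (inv_mem hγ) ?_
      have h2 : 0 < lam γ⁻¹ := (hconf _ (inv_mem hγ)).2.2
      by_contra h3
      push Not at h3
      nlinarith
    · exact nolam hcontr hF1 hF2 hP1 hK hcof hconj hnd hco D hC γ hγ h1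

end Pool.Agent.Helper40.K3.S2
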