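import Pool.Agent.Helper77.K3.DefsI

/-!
# Kleinian structures in dimension three: the dual flag system
-/

set_option autoImplicit false

open Set Filter Topology Matrix

namespace Pool.Agent.Helper40.K3.dual

open Pool.Agent.Helper77.K3

/-- Conjugate transpose inverse. -/
def dm {G : Type} [Group G] (ρ : G →* SL3) (f : G) : M3 :=
  ((ρ f⁻¹ : M3)ᵀ).submatrix Fin.revPerm Fin.revPerm

lemma dm_apply {G : Type} [Group G] (ρ : G →* SL3) (f : G) (i j : Fin 3) :
    dm ρ f i j = (ρ f⁻¹ : M3) (Fin.rev j) (Fin.rev i) := rfl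

/-- The dual representation. -/
def drep {G : Type} [Group G] (ρ : G →* SL3) : G →* SL3 where
  toFun f := ⟨dm ρ f, by
    rw [dm, Matrix.det_submatrix_equiv_self, Matrix.det_transpose]
    exact (ρ f⁻¹).2⟩
  map_one' := by
    ext i j
    simp only [dm_apply, inv_one, map_one, Matrix.SpecialLinearGroup.coe_one, Matrix.one_apply,
      Fin.rev_inj, eq_comm]
  map_mul' f g := by
    apply Subtype.ext
    change dm ρ (f * g) = dm ρ f * dm ρ g
    rw [dm, dm, dm, Matrix.submatrix_mul_equiv, ← Matrix.transpose_mul, _root_.mul_inv_rev, map_mul,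
      Matrix.SpecialLinearGroup.coe_mul]

lemma drep_coe {G : Type} [Group G] (ρ : G →* SL3) (f : G) : (drep ρ f : M3) = dm ρ f := rfl

lemma dm_mulVec {G : Type} [Group G] (ρ : G →* SL3) (f : G) (x : E) :
    dm ρ f *ᵥ (x ∘ Fin.rev) = (x ᵥ* (ρ f⁻¹ : M3)) ∘ Fin.rev := by
  ext i
  simp only [Matrix.mulVec, Matrix.vecMul, dotProduct, dm_apply, Function.comp, Fin.sum_univ_three]
  fin_cases i <;> simp [Fin.rev] <;> ring

lemma vecMul_dm {G : Type} [Group G] (ρ : G →* SL3) (f : G) (x : E) :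
    (x ∘ Fin.rev) ᵥ* dm ρ f⁻¹ = ((ρ f : M3) *ᵥ x) ∘ Fin.rev := by
  ext i
  simp only [Matrix.mulVec, Matrix.vecMul, dotProduct, dm_apply, Function.comp, Fin.sum_univ_three,
    inv_inv]
  fin_cases i <;> simp [Fin.rev] <;> ring

lemma e_rev (i : Fin 3) : e i ∘ Fin.rev = e (Fin.rev i) := by
  ext j
  simp only [e, Function.comp, Pi.single_apply]
  fin_cases i <;> fin_cases j <;> simp [Fin.rev]

lemma rev_rev (x : E) : (x ∘ Fin.rev) ∘ Fin.rev = x := by
  ext i
  simp [Function.comp]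

/-- The bilinear form `(u, x) ↦ ⟨u ∘ rev, x⟩`. -/
def bf : LinearMap.BilinForm ℝ E :=
  LinearMap.mk₂ ℝ (fun u x => (u ∘ Fin.rev) ⬝ᵥ x)
    (fun u v x => by
      simp only [dotProduct, Function.comp, Fin.sum_univ_three, Pi.add_apply]; ring)
    (fun c u x => by
      simp only [dotProduct, Function.comp, Fin.sum_univ_three, Pi.smul_apply, smul_eq_mul]; ring)
    (fun u x y => by
      simp only [dotProduct, Function.comp, Fin.sum_univ_three, Pi.add_apply]; ring)
    (fun c u x => by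
      simp only [dotProduct, Function.comp, Fin.sum_univ_three, Pi.smul_apply, smul_eq_mul]; ring)

lemma bf_apply (u x : E) : bf u x = (u ∘ Fin.rev) ⬝ᵥ x := rfl

lemma bf_symm (u x : E) : bf u x = bf x u := by
  simp only [bf_apply, dotProduct, Function.comp, Fin.sum_univ_three]
  simp [Fin.rev]
  ring

lemma bf_refl : bf.IsRefl := fun u x h => by rw [bf_symm, h]

lemma bf_nondeg : bf.Nondegenerate := by
  refine (LinearMap.IsRefl.nondegenerate_iff_separatingLeft bf_refl).2 fun u hu => ?_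
  have h1 : u ∘ Fin.rev = 0 := dotProduct_eq_zero _ fun x => hu x
  rw [← rev_rev u, h1]
  rfl

lemma bf_drep {G : Type} [Group G] (ρ : G →* SL3) (f : G) (u x : E) :
    bf (dm ρ f *ᵥ u) x = bf u ((ρ f⁻¹ : M3) *ᵥ x) := by
  have h : u = (u ∘ Fin.rev) ∘ Fin.rev := (rev_rev u).symm
  rw [bf_apply, bf_apply, h, dm_mulVec, rev_rev, rev_rev, Matrix.dotProduct_mulVec]

lemma strIrr {G : Type} [Group G] (ρ : G →* SL3) (h : StrIrr (linRep ρ)) :
    StrIrr (linRep (drep ρ)) := by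
  intro G' hG' U hU
  have h1 := h G' hG' (bf.orthogonal U) (by
    intro f hf x hx u hu
    have h2 := hx _ (hU f⁻¹ (inv_mem hf) u hu)
    have h3 : linRep (drep ρ) f⁻¹ u = dm ρ f⁻¹ *ᵥ u := rfl
    rw [h3] at h2
    have h4 : linRep ρ f x = (ρ f : M3) *ᵥ x := rfl
    rw [h4]
    change bf _ _ = 0 at h2
    rw [bf_drep, inv_inv] at h2
    exact h2)
  rcases h1 with h1 | h1
  · right
    rw [← LinearMap.BilinForm.orthogonal_orthogonal bf_nondeg bf_refl U, h1]
    exact LinearMap.BilinForm.orthogonal_bot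
  · left
    rw [← LinearMap.BilinForm.orthogonal_orthogonal bf_nondeg bf_refl U, h1]
    exact LinearMap.BilinForm.orthogonal_top_eq_bot bf_nondeg

/-- The dual system. -/
noncomputable def dFS (F : FS) : FS where
  G := F.G
  ρ := drep F.ρ
  irr := strIrr F.ρ F.irr
  g := F.g
  ν := fun i => (F.ν (Fin.rev i))⁻¹
  pos := by
    have h0 := F.pos
    have h1 := F.lt1
    have h2 := F.lt0
    change 0 < (F.ν 0)⁻¹
    exact inv_pos.2 (by linarith)
  lt1 := by
    have h0 := F.pos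
    have h1 := F.lt1
    have h2 := F.lt0
    change (F.ν 0)⁻¹ < (F.ν 1)⁻¹
    exact inv_strictAnti₀ (by linarith) h2
  lt0 := by
    have h0 := F.pos
    have h1 := F.lt1
    have h2 := F.lt0
    change (F.ν 1)⁻¹ < (F.ν 2)⁻¹
    exact inv_strictAnti₀ (by linarith) h1
  ne1 := by
    change (F.ν 1)⁻¹ ≠ 1
    exact fun h => F.ne1 (inv_eq_one.1 h)
  diag := by
    have h0 := F.pos
    have h1 := F.lt1
    have h2 := F.lt0
    have h3 : (F.ρ F.g⁻¹ : M3) = Matrix.diagonal (fun i => (F.ν i)⁻¹) := by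
      have h4 : (F.ρ F.g⁻¹ : M3) * (F.ρ F.g : M3) = 1 := by
        rw [← Matrix.SpecialLinearGroup.coe_mul, ← map_mul, inv_mul_cancel, map_one,
          Matrix.SpecialLinearGroup.coe_one]
      have h5 : Matrix.diagonal F.ν * Matrix.diagonal (fun i => (F.ν i)⁻¹) = (1 : M3) := by
        rw [Matrix.diagonal_mul_diagonal, ← Matrix.diagonal_one]
        congr 1
        ext i
        apply mul_inv_cancel₀
        fin_cases i
        · change F.ν 0 ≠ 0
          linarith
        · change F.ν 1 ≠ 0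
          linarith
        · change F.ν 2 ≠ 0
          linarith
      rw [F.diag] at h4
      calc (F.ρ F.g⁻¹ : M3) = (F.ρ F.g⁻¹ : M3) * (Matrix.diagonal F.ν *
          Matrix.diagonal (fun i => (F.ν i)⁻¹)) := by rw [h5, mul_one]
        _ = _ := by rw [← mul_assoc, h4, one_mul]
    rw [drep_coe]
    ext i j
    rw [dm_apply, h3, Matrix.diagonal_apply, Matrix.diagonal_apply]
    simp only [Fin.rev_inj, eq_comm]
    split_ifs with hij
    · rw [hij]
    · rfl
  NC := by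
    intro f
    rw [drep_coe, drep_coe, dm_apply, dm_apply, inv_inv]
    have h := F.NC f
    rw [mul_comm]
    exact h

/-- The duality on pairs. -/
def theta : (E × E) ≃ₜ (E × E) where
  toFun p := (p.2 ∘ Fin.rev, p.1 ∘ Fin.rev)
  invFun p := (p.2 ∘ Fin.rev, p.1 ∘ Fin.rev)
  left_inv p := by
    simp only [rev_rev]
  right_inv p := by
    simp only [rev_rev]
  continuous_toFun := by
    refine Continuous.prodMk ?_ ?_
    · exact continuous_pi fun i => (continuous_apply (Fin.rev i)).comp continuous_snd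
    · exact continuous_pi fun i => (continuous_apply (Fin.rev i)).comp continuous_fst
  continuous_invFun := by
    refine Continuous.prodMk ?_ ?_
    · exact continuous_pi fun i => (continuous_apply (Fin.rev i)).comp continuous_snd
    · exact continuous_pi fun i => (continuous_apply (Fin.rev i)).comp continuous_fst

lemma theta_apply (p : E × E) : theta p = (p.2 ∘ Fin.rev, p.1 ∘ Fin.rev) := rfl

lemma comp_rev_inj {x y : E} : x ∘ Fin.rev = y ∘ Fin.rev ↔ x = y :=
  ⟨fun h => by rw [← rev_rev x, h, rev_rev], fun h => by rw [h]⟩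

lemma orb_eq (F : FS) : theta ⁻¹' (dFS F).orb = F.orb := by
  ext p
  have key : ∀ (f : F.G) (a b : ℝ), theta p = (a • ((dFS F).m f *ᵥ e 2), b • (e 0 ᵥ* (dFS F).m f⁻¹)) ↔
      p = (b • (F.m f *ᵥ e 2), a • (e 0 ᵥ* F.m f⁻¹)) := by
    intro f a b
    have h1 : (dFS F).m f *ᵥ e 2 = (e 0 ᵥ* F.m f⁻¹) ∘ Fin.rev := by
      have h2 : (e 2 : E) = e 0 ∘ Fin.rev := by rw [e_rev]; rfl
      rw [h2]
      exact dm_mulVec F.ρ f (e 0)
    have h3 : e 0 ᵥ* (dFS F).m f⁻¹ = (F.m f *ᵥ e 2) ∘ Fin.rev := by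
      have h2 : (e 0 : E) = e 2 ∘ Fin.rev := by rw [e_rev]; rfl
      rw [h2]
      exact vecMul_dm F.ρ f (e 2)
    rw [h1, h3, theta_apply, Prod.mk.injEq, Prod.ext_iff]
    have h4 : a • ((e 0 ᵥ* F.m f⁻¹) ∘ Fin.rev) = (a • (e 0 ᵥ* F.m f⁻¹)) ∘ Fin.rev := rfl
    have h5 : b • ((F.m f *ᵥ e 2) ∘ Fin.rev) = (b • (F.m f *ᵥ e 2)) ∘ Fin.rev := rfl
    rw [h4, h5, comp_rev_inj, comp_rev_inj, and_comm]
  constructor
  · rintro ⟨f, a, b, hab, h⟩
    exact ⟨f, b, a, by rwa [mul_comm], (key f a b).1 h⟩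
  · rintro ⟨f, a, b, hab, h⟩
    exact ⟨f, b, a, by rwa [mul_comm], (key f b a).2 h⟩

/-- The dual flag system (3.4). -/
theorem dual : S_dual := by
  intro F
  refine ⟨dFS F, fun x φ => ?_⟩
  have h1 : (φ ∘ Fin.rev, x ∘ Fin.rev) = theta (x, φ) := rfl
  have h2 : theta (x, φ) ∈ closure (dFS F).orb ↔ (x, φ) ∈ closure F.orb := by
    rw [← orb_eq F, ← theta.preimage_closure]
    rfl
  have h3 : ∀ y : E, y ∘ Fin.rev ≠ 0 ↔ y ≠ 0 := by
    intro y
    have h4 : (0 : E) = (0 : E) ∘ Fin.rev := rfl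
    rw [h4, Ne, comp_rev_inj]
    rfl
  rw [FS.fl, FS.fl, h1]
  constructor
  · rintro ⟨h, h5, h6⟩
    exact ⟨h2.2 h, (h3 φ).2 h6, (h3 x).2 h5⟩
  · rintro ⟨h, h5, h6⟩
    exact ⟨h2.1 h, (h3 x).1 h6, (h3 φ).1 h5⟩

end Pool.Agent.Helper40.K3.dual
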