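import Pool.Agent.Helper77.K3.DefsI

/-!
# Kleinian structures in dimension three: Lemma C
-/

set_option autoImplicit false

open Set Filter Topology Matrix

namespace Pool.Agent.Helper40.K3.lemC

open Pool.Agent.Helper77.K3

/-- Two independent vectors of the plane `ker φ` and a vector off the plane. -/
lemma indep {φ y z n : E} (hy : y ≠ 0) (hyz : ∀ t : ℝ, z ≠ t • y) (hφy : φ ⬝ᵥ y = 0)
    (hφz : φ ⬝ᵥ z = 0) (hn : φ ⬝ᵥ n ≠ 0) : LinearIndependent ℝ ![y, z, n] := by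
  rw [Fintype.linearIndependent_iff]
  intro g hg
  simp only [Fin.sum_univ_three, Matrix.cons_val_zero, Matrix.cons_val_one, Matrix.cons_val] at hg
  have h2 : g 2 = 0 := by
    have h := congrArg (fun w => φ ⬝ᵥ w) hg
    simp only [dotProduct_add, dotProduct_smul, hφy, hφz, mul_zero, zero_add, dotProduct_zero,
      smul_eq_mul] at h
    exact (mul_eq_zero.1 h).resolve_right hn
  rw [h2, zero_smul, add_zero] at hg
  have h1 : g 1 = 0 := by
    by_contra h
    apply hyz (-(g 0) / g 1)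
    have h3 : g 1 • z = -(g 0) • y := by
      rw [neg_smul]
      exact eq_neg_of_add_eq_zero_right hg
    calc z = (g 1)⁻¹ • (g 1 • z) := by rw [smul_smul, inv_mul_cancel₀ h, one_smul]
      _ = _ := by rw [h3, smul_smul, inv_mul_eq_div]
  rw [h1, zero_smul, add_zero] at hg
  have h0 : g 0 = 0 := (smul_eq_zero.1 hg).resolve_right hy
  intro i
  fin_cases i
  · exact h0
  · exact h1
  · exact h2

/-- The exact decomposition along `y, z, n`, with continuous coordinates. -/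
lemma coords {φ y z n : E} (hy : y ≠ 0) (hyz : ∀ t : ℝ, z ≠ t • y) (hφy : φ ⬝ᵥ y = 0)
    (hφz : φ ⬝ᵥ z = 0) (hn : φ ⬝ᵥ n = 1) :
    ∃ α β : E →ₗ[ℝ] ℝ, ∀ w : E, w = α w • y + β w • z + (φ ⬝ᵥ w) • n := by
  have hli := indep hy hyz hφy hφz (by rw [hn]; exact one_ne_zero)
  let b := basisOfLinearIndependentOfCardEqFinrank hli (by simp)
  refine ⟨b.coord 0, b.coord 1, fun w => ?_⟩
  have h := b.sum_repr w
  rw [Fin.sum_univ_three] at h
  have hb : ∀ i, b i = ![y, z, n] i := fun i => by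
    rw [coe_basisOfLinearIndependentOfCardEqFinrank]
  rw [hb, hb, hb] at h
  change (b.coord 0 w) • y + (b.coord 1 w) • z + (b.coord 2 w) • n = w at h
  have h2 : φ ⬝ᵥ w = b.coord 2 w := by
    conv_lhs => rw [← h]
    simp only [dotProduct_add, dotProduct_smul, hφy, hφz, hn, mul_zero, zero_add, smul_eq_mul,
      mul_one]
  rw [h2, h]

/-- First case. -/
lemma case1 (hflag : S_flag) (hdens : S_dens) (F : FS) (φ : E) (y : Fin 3 → E) (d : Fin 3 → ℝ)
    (hF : ∀ i, (y i, φ) ∈ F.fl) (hind : ∀ t : ℝ, y 1 ≠ t • y 0) (hd : ∀ i, 0 < d i)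
    (hs : d 0 • y 0 + d 1 • y 1 + d 2 • y 2 = 0) : False := by
  obtain ⟨h0, hscale, hact, hperp, hNC, hclosed, hneg, hcl1, hcl2⟩ := hflag F
  have hy0 : y 0 ≠ 0 := (hF 0).2.1
  have hφ : φ ≠ 0 := (hF 0).2.2
  obtain ⟨G, hG, -, hv⟩ := hdens F _ (hF 0) φ hφ 1 one_pos
  -- the functional of `G` vanishes on the plane
  have hz : ∀ i, G.2 ⬝ᵥ y i = 0 := by
    have h1 : ∀ i, 0 ≤ (φ ⬝ᵥ G.1) * (G.2 ⬝ᵥ y i) := fun i => hNC _ (hF i) _ hG
    have h2 : d 0 * (G.2 ⬝ᵥ y 0) + d 1 * (G.2 ⬝ᵥ y 1) + d 2 * (G.2 ⬝ᵥ y 2) = 0 := by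
      have h := congrArg (fun w => G.2 ⬝ᵥ w) hs
      simpa only [dotProduct_add, dotProduct_smul, dotProduct_zero, smul_eq_mul] using h
    have h3 : d 0 * ((φ ⬝ᵥ G.1) * (G.2 ⬝ᵥ y 0)) + d 1 * ((φ ⬝ᵥ G.1) * (G.2 ⬝ᵥ y 1)) +
        d 2 * ((φ ⬝ᵥ G.1) * (G.2 ⬝ᵥ y 2)) = 0 := by
      linear_combination (φ ⬝ᵥ G.1) * h2
    have h4 : ∀ i, 0 ≤ d i * ((φ ⬝ᵥ G.1) * (G.2 ⬝ᵥ y i)) := fun i =>
      mul_nonneg (hd i).le (h1 i)
    have h5 : ∀ i, d i * ((φ ⬝ᵥ G.1) * (G.2 ⬝ᵥ y i)) = 0 := by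
      intro i
      have a0 := h4 0
      have a1 := h4 1
      have a2 := h4 2
      fin_cases i
      · change d 0 * ((φ ⬝ᵥ G.1) * (G.2 ⬝ᵥ y 0)) = 0
        linarith
      · change d 1 * ((φ ⬝ᵥ G.1) * (G.2 ⬝ᵥ y 1)) = 0
        linarith
      · change d 2 * ((φ ⬝ᵥ G.1) * (G.2 ⬝ᵥ y 2)) = 0
        linarith
    intro i
    have h6 := (mul_eq_zero.1 (h5 i)).resolve_left (hd i).ne'
    exact (mul_eq_zero.1 h6).resolve_left hv
  -- decompose
  obtain ⟨α, β, hab⟩ := coords (n := (φ ⬝ᵥ G.1)⁻¹ • G.1) hy0 hind (hperp _ (hF 0))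
    (hperp _ (hF 1)) (by rw [dotProduct_smul, smul_eq_mul, inv_mul_cancel₀ hv])
  have h7 : G.2 = 0 := by
    apply dotProduct_eq_zero
    intro w
    rw [hab w, dotProduct_add, dotProduct_add, dotProduct_smul, dotProduct_smul, dotProduct_smul,
      dotProduct_smul, hz 0, hz 1, hperp _ hG]
    simp
  exact hG.2.2 h7

/-- Second case. -/
lemma case2 (hflag : S_flag) (hdens : S_dens) (F : FS) (φ y1 y2 y3 : E) (a b : ℝ)
    (h1 : (y1, φ) ∈ F.fl) (h2 : (y2, φ) ∈ F.fl) (h3 : (y3, φ) ∈ F.fl)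
    (hind : ∀ t : ℝ, y3 ≠ t • y1) (ha : 0 < a) (hb : 0 < b) (hs : y2 = a • y1 + b • y3) :
    False := by
  obtain ⟨h0, hscale, hact, hperp, hNC, hclosed, hneg, hcl1, hcl2⟩ := hflag F
  have hy1 : y1 ≠ 0 := h1.2.1
  have hφ : φ ≠ 0 := h1.2.2
  have hφφ : φ ⬝ᵥ φ ≠ 0 := fun h => hφ (dotProduct_self_eq_zero.1 h)
  obtain ⟨α, β, hab⟩ := coords (n := (φ ⬝ᵥ φ)⁻¹ • φ) hy1 hind (hperp _ h1)
    (hperp _ h3) (by rw [dotProduct_smul, smul_eq_mul, inv_mul_cancel₀ hφφ])
  have hn : φ ⬝ᵥ ((φ ⬝ᵥ φ)⁻¹ • φ) = 1 := by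
    rw [dotProduct_smul, smul_eq_mul, inv_mul_cancel₀ hφφ]
  set n : E := (φ ⬝ᵥ φ)⁻¹ • φ with hndef
  -- open conditions
  have hαc : Continuous α := LinearMap.continuous_of_finiteDimensional α
  have hβc : Continuous β := LinearMap.continuous_of_finiteDimensional β
  have ev1 : ∀ᶠ q : E × E in 𝓝 (y2, φ), 0 < a + α (q.1 - y2) := by
    have hc : ContinuousAt (fun q : E × E => a + α (q.1 - y2)) (y2, φ) := by fun_prop
    refine hc.eventually (lt_mem_nhds ?_)
    simp [ha]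
  have ev2 : ∀ᶠ q : E × E in 𝓝 (y2, φ), 0 < b + β (q.1 - y2) := by
    have hc : ContinuousAt (fun q : E × E => b + β (q.1 - y2)) (y2, φ) := by fun_prop
    refine hc.eventually (lt_mem_nhds ?_)
    simp [hb]
  have ev3 : ∀ᶠ q : E × E in 𝓝 (y2, φ), 0 < q.2 ⬝ᵥ n := by
    have hc : ContinuousAt (fun q : E × E => q.2 ⬝ᵥ n) (y2, φ) := by
      unfold dotProduct
      fun_prop
    refine hc.eventually (lt_mem_nhds ?_)
    simp [hn]
  obtain ⟨ε, hε, hball⟩ := Metric.eventually_nhds_iff.1 (ev1.and (ev2.and ev3))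
  obtain ⟨G, hG, hGε, hv⟩ := hdens F _ h2 φ hφ ε hε
  obtain ⟨c1, c2, c3⟩ := hball (by rwa [dist_eq_norm])
  -- the identity
  have e1 : 0 ≤ (φ ⬝ᵥ G.1) * (G.2 ⬝ᵥ y1) := hNC _ h1 _ hG
  have e3 : 0 ≤ (φ ⬝ᵥ G.1) * (G.2 ⬝ᵥ y3) := hNC _ h3 _ hG
  have hφ2 : φ ⬝ᵥ (G.1 - y2) = φ ⬝ᵥ G.1 := by
    rw [dotProduct_sub, hperp _ h2, sub_zero]
  have hx : G.1 = (a + α (G.1 - y2)) • y1 + (b + β (G.1 - y2)) • y3 + (φ ⬝ᵥ G.1) • n := by
    have h := hab (G.1 - y2)
    rw [hφ2] at h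
    calc G.1 = y2 + (G.1 - y2) := by abel
      _ = (a • y1 + b • y3) + (α (G.1 - y2) • y1 + β (G.1 - y2) • y3 + (φ ⬝ᵥ G.1) • n) := by
        rw [← h, ← hs]
      _ = _ := by
        rw [add_smul, add_smul]
        abel
  have h5 : 0 = (a + α (G.1 - y2)) * (G.2 ⬝ᵥ y1) + (b + β (G.1 - y2)) * (G.2 ⬝ᵥ y3) +
      (φ ⬝ᵥ G.1) * (G.2 ⬝ᵥ n) := by
    have h := hperp _ hG
    conv_lhs at h => rw [hx]
    simp only [dotProduct_add, dotProduct_smul, smul_eq_mul] at h
    exact h.symm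
  have h6 : 0 = (a + α (G.1 - y2)) * ((φ ⬝ᵥ G.1) * (G.2 ⬝ᵥ y1)) +
      (b + β (G.1 - y2)) * ((φ ⬝ᵥ G.1) * (G.2 ⬝ᵥ y3)) + (φ ⬝ᵥ G.1) ^ 2 * (G.2 ⬝ᵥ n) := by
    linear_combination (φ ⬝ᵥ G.1) * h5
  have h7 : 0 < (φ ⬝ᵥ G.1) ^ 2 * (G.2 ⬝ᵥ n) := mul_pos (by positivity) c3
  have h8 := mul_nonneg c1.le e1
  have h9 := mul_nonneg c2.le e3
  linarith

/-- Lemma C. -/
theorem lemC (hflag : S_flag) (hdens : S_dens) : S_lemC := by
  intro F x c φ hc hx
  by_contra hcon
  push Not at hcon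
  obtain ⟨h0, hscale, hact, hperp, hNC, hclosed, hneg, hcl1, hcl2⟩ := hflag F
  -- normalise
  obtain ⟨y, hyx⟩ : ∃ y : Fin 3 → E, ∀ i, y i = c i • x i := ⟨_, fun i => rfl⟩
  have hF : ∀ i, (y i, φ) ∈ F.fl := by
    intro i
    have h := hscale _ (hx i) (c i) (c i)⁻¹ (by rw [mul_inv_cancel₀ (hc i)]; exact one_pos)
    rwa [← hyx, smul_smul, inv_mul_cancel₀ (hc i), one_smul] at h
  have hφ : φ ≠ 0 := (hF 0).2.2
  have hyi : ∀ i j, i ≠ j → ∀ t : ℝ, y i ≠ t • y j := by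
    intro i j hij t h
    apply hcon i j hij ((c i)⁻¹ * (t * c j))
    rw [hyx, hyx, smul_smul] at h
    calc x i = (c i)⁻¹ • (c i • x i) := by rw [smul_smul, inv_mul_cancel₀ (hc i), one_smul]
      _ = _ := by rw [h, smul_smul]
  -- linear relation
  have hli : ¬ LinearIndependent ℝ y := by
    intro hli
    let b := basisOfLinearIndependentOfCardEqFinrank hli (by simp)
    apply hφ
    apply dotProduct_eq_zero
    intro w
    rw [← b.sum_repr w, Fin.sum_univ_three]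
    have hb : ∀ i, b i = y i := fun i => by
      rw [coe_basisOfLinearIndependentOfCardEqFinrank]
    rw [hb, hb, hb, dotProduct_add, dotProduct_add, dotProduct_smul, dotProduct_smul,
      dotProduct_smul, hperp _ (hF 0), hperp _ (hF 1), hperp _ (hF 2)]
    simp
  obtain ⟨d, hd, k, hk⟩ := Fintype.not_linearIndependent_iff.1 hli
  rw [Fin.sum_univ_three] at hd
  -- a relation between two of the vectors is trivial
  have two : ∀ i j, i ≠ j → ∀ s t : ℝ, s • y i + t • y j = 0 → s = 0 ∧ t = 0 := by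
    intro i j hij s t h
    have hs : s = 0 := by
      by_contra hs
      apply hyi i j hij (-t / s)
      have h3 : s • y i = (-t) • y j := by
        rw [neg_smul]
        exact eq_neg_of_add_eq_zero_left h
      calc y i = s⁻¹ • (s • y i) := by rw [smul_smul, inv_mul_cancel₀ hs, one_smul]
        _ = _ := by rw [h3, smul_smul, inv_mul_eq_div]
    rw [hs, zero_smul, zero_add] at h
    exact ⟨hs, (smul_eq_zero.1 h).resolve_right (hF j).2.1⟩
  have hdne : ∀ i, d i ≠ 0 := by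
    have z0 : d 0 = 0 → False := fun h => by
      rw [h, zero_smul, zero_add] at hd
      obtain ⟨h1, h2⟩ := two 1 2 (by decide) _ _ hd
      apply hk
      fin_cases k
      · exact h
      · exact h1
      · exact h2
    have z1 : d 1 = 0 → False := fun h => by
      rw [h, zero_smul, add_zero] at hd
      obtain ⟨h1, h2⟩ := two 0 2 (by decide) _ _ hd
      apply hk
      fin_cases k
      · exact h1
      · exact h
      · exact h2
    have z2 : d 2 = 0 → False := fun h => by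
      rw [h, zero_smul, add_zero] at hd
      obtain ⟨h1, h2⟩ := two 0 1 (by decide) _ _ hd
      apply hk
      fin_cases k
      · exact h1
      · exact h2
      · exact h
    intro i
    fin_cases i
    · exact z0
    · exact z1
    · exact z2
  -- reduction to positive first coefficients
  have main : ∀ d : Fin 3 → ℝ, (∀ i, d i ≠ 0) → d 0 • y 0 + d 1 • y 1 + d 2 • y 2 = 0 →
      0 < d 0 → False := by
    intro d hdne hd p0
    rcases lt_or_gt_of_ne (hdne 1) with n1 | p1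
    · rcases lt_or_gt_of_ne (hdne 2) with n2 | p2
      · -- `y 0` is a positive combination of `y 1`, `y 2`
        refine case2 hflag hdens F φ (y 1) (y 0) (y 2) (-(d 1) / d 0) (-(d 2) / d 0) (hF 1) (hF 0)
          (hF 2) (hyi 2 1 (by decide)) (div_pos (by linarith) p0) (div_pos (by linarith) p0) ?_
        have h : d 0 • y 0 = (-(d 1)) • y 1 + (-(d 2)) • y 2 := by
          rw [neg_smul, neg_smul]
          have := hd
          rw [add_assoc] at this
          rw [eq_neg_of_add_eq_zero_left this]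
          abel
        calc y 0 = (d 0)⁻¹ • (d 0 • y 0) := by rw [smul_smul, inv_mul_cancel₀ p0.ne', one_smul]
          _ = _ := by rw [h, smul_add, smul_smul, smul_smul, inv_mul_eq_div, inv_mul_eq_div]
      · -- `y 1` is a positive combination of `y 0`, `y 2`
        refine case2 hflag hdens F φ (y 0) (y 1) (y 2) (d 0 / -(d 1)) (d 2 / -(d 1)) (hF 0) (hF 1)
          (hF 2) (hyi 2 0 (by decide)) (div_pos p0 (by linarith)) (div_pos p2 (by linarith)) ?_
        have h : (-(d 1)) • y 1 = d 0 • y 0 + d 2 • y 2 := by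
          rw [neg_smul, neg_eq_iff_add_eq_zero, ← hd]
          abel
        have hne : -(d 1) ≠ 0 := neg_ne_zero.2 (hdne 1)
        calc y 1 = (-(d 1))⁻¹ • ((-(d 1)) • y 1) := by
              rw [smul_smul, inv_mul_cancel₀ hne, one_smul]
          _ = _ := by rw [h, smul_add, smul_smul, smul_smul, inv_mul_eq_div, inv_mul_eq_div]
    · rcases lt_or_gt_of_ne (hdne 2) with n2 | p2
      · -- `y 2` is a positive combination of `y 0`, `y 1`
        refine case2 hflag hdens F φ (y 0) (y 2) (y 1) (d 0 / -(d 2)) (d 1 / -(d 2)) (hF 0) (hF 2)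
          (hF 1) (hyi 1 0 (by decide)) (div_pos p0 (by linarith)) (div_pos p1 (by linarith)) ?_
        have h : (-(d 2)) • y 2 = d 0 • y 0 + d 1 • y 1 := by
          rw [neg_smul, neg_eq_iff_add_eq_zero, ← hd]
          abel
        have hne : -(d 2) ≠ 0 := neg_ne_zero.2 (hdne 2)
        calc y 2 = (-(d 2))⁻¹ • ((-(d 2)) • y 2) := by
              rw [smul_smul, inv_mul_cancel₀ hne, one_smul]
          _ = _ := by rw [h, smul_add, smul_smul, smul_smul, inv_mul_eq_div, inv_mul_eq_div]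
      · refine case1 hflag hdens F φ y d hF (hyi 1 0 (by decide)) ?_ hd
        intro i
        fin_cases i
        · exact p0
        · exact p1
        · exact p2
  rcases lt_or_gt_of_ne (hdne 0) with n0 | p0
  · refine main (fun i => -(d i)) (fun i => neg_ne_zero.2 (hdne i)) ?_ (by simpa using n0)
    simp only [neg_smul]
    rw [← neg_add, ← neg_add, hd, neg_zero]
  · exact main d hdne hd p0

end Pool.Agent.Helper40.K3.lemC
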